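import Pool.Agent.V8H88.LR.Mat
import Pool.Agent.V8H88.UV.Trf

/-!
# Rank three: one common eigenvalue
-/

set_option autoImplicit false

namespace Pool.Agent.V8H88.LR

open Matrix Pool.Agent.V8H88.GO

section defs

variable {k Γ : Type} [Field k] [Group Γ] {m : Type} [Fintype m] [DecidableEq m]

/-- `W` permutes the lines of some basis. -/
def Monomial (W : Γ →* Matrix m m k) : Prop :=
  ∃ b : Module.Basis m k (m → k), ∀ (g : Γ) (i : m), ∃ (j : m) (c : k), W g *ᵥ b i = c • b j

/-- `W` is isomorphic to a twist of its dual: it preserves a nonzero bilinear form up to factors. -/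
def EssSelfDual (W : Γ →* Matrix m m k) : Prop :=
  ∃ B : Matrix m m k, B ≠ 0 ∧ ∀ g : Γ, ∃ c : k, (W g)ᵀ * B * W g = c • B

end defs

theorem fin3 (i j l m : Fin 3) (h1 : i ≠ j) (h2 : m ≠ l) (h3 : m ≠ i) (h4 : m ≠ j) (h5 : l ≠ i)
    (h6 : l ≠ j) : False := by
  rw [Ne, Fin.ext_iff] at h1 h2 h3 h4 h5 h6
  omega

section mono

variable {k Γ : Type} [Field k] [Group Γ] {W : Γ →* Matrix (Fin 3) (Fin 3) k}
  (Z : Submonoid (Matrix (Fin 3) (Fin 3) k))

include W in
theorem mono_of_eig (hW : IsIrreducible W) (hc : ∀ γ, ∀ A ∈ Z, W γ * A * W γ⁻¹ ∈ Z)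
    (h : ∀ A ∈ Z, (1 - A).det = 0) (hne : ¬ ∀ A ∈ Z, A = 1) (x : Fin 3 → k) (hx : x ≠ 0)
    (hxZ : ∀ A ∈ Z, ∃ c : k, A *ᵥ x = c • x) : Monomial W := by
  classical
  obtain ⟨γ, c, hγ⟩ := Pool.Agent.V8H88.UV.orbit_span hW hx
  have hspan : ⊤ ≤ Submodule.span k (Set.range fun i => W (γ i) *ᵥ x) := by
    intro v _
    rw [← Finset.univ_sum_single v]
    refine Submodule.sum_mem _ fun j _ => ?_
    have h6 : (Pi.single j (v j) : Fin 3 → k) = v j • Pi.single j 1 := by
      rw [← Pi.single_smul, smul_eq_mul, mul_one]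
    rw [h6, hγ j]
    exact Submodule.smul_mem _ _ (Submodule.sum_mem _ fun i _ => Submodule.smul_mem _ _
      (Submodule.subset_span ⟨i, rfl⟩))
  let b : Module.Basis (Fin 3) k (Fin 3 → k) :=
    basisOfTopLeSpanOfCardEqFinrank (fun i => W (γ i) *ᵥ x) hspan (by simp)
  have hb : ∀ i, b i = W (γ i) *ᵥ x := fun i => by
    simp [b, coe_basisOfTopLeSpanOfCardEqFinrank]
  have hcc : ∀ g, ∀ A ∈ Z, W g⁻¹ * A * W g ∈ Z := by
    intro g A hA
    have := hc g⁻¹ A hA
    rwa [inv_inv] at this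
  choose ψ hψ using hxZ
  -- the characters
  let Ψ : Γ → Z → k := fun g A => ψ (W g⁻¹ * A.1 * W g) (hcc g A.1 A.2)
  have hΨ : ∀ g (A : Z), A.1 *ᵥ (W g *ᵥ x) = Ψ g A • (W g *ᵥ x) := by
    intro g A
    rw [conj_key, hψ _ (hcc g A.1 A.2), mulVec_smul]
  have hΨmul : ∀ e g g', Ψ g = Ψ g' → Ψ (e * g) = Ψ (e * g') := by
    intro e g g' hgg
    funext A
    have h1 : ∀ g, Ψ (e * g) A = Ψ g ⟨W e⁻¹ * A.1 * W e, hcc e A.1 A.2⟩ := by
      intro g
      have h2 : W (e * g)⁻¹ * A.1 * W (e * g) = W g⁻¹ * (W e⁻¹ * A.1 * W e) * W g := by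
        rw [_root_.mul_inv_rev, map_mul, map_mul]
        simp only [mul_assoc]
      change ψ _ _ = ψ _ _
      congr 1
    rw [h1 g, h1 g', hgg]
  have hne0 : ∀ g, W g *ᵥ x ≠ 0 := by
    intro g h0
    apply hx
    have h1 : W g⁻¹ *ᵥ (W g *ᵥ x) = x := by
      rw [mulVec_mulVec, ← map_mul, inv_mul_cancel, map_one, one_mulVec]
    rw [← h1, h0, mulVec_zero]
  have hrep : ∀ g i, b.repr (W g *ᵥ x) i ≠ 0 → Ψ g = Ψ (γ i) := by
    intro g i hi
    funext A
    have h1 : b.repr (A.1 *ᵥ (W g *ᵥ x)) i = Ψ (γ i) A * b.repr (W g *ᵥ x) i := by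
      conv_lhs => rw [← b.sum_repr (W g *ᵥ x)]
      rw [Matrix.mulVec_sum, map_sum, Finsupp.finsetSum_apply, Finset.sum_eq_single i]
      · rw [mulVec_smul, hb, hΨ, ← hb, map_smul, map_smul, Module.Basis.repr_self]
        simp [mul_comm]
      · intro j _ hj
        rw [mulVec_smul, hb, hΨ, ← hb, map_smul, map_smul, Module.Basis.repr_self]
        simp [hj]
      · intro h'; exact absurd (Finset.mem_univ i) h'
    rw [hΨ, map_smul, Finsupp.smul_apply, smul_eq_mul] at h1
    exact mul_right_cancel₀ hi h1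
  by_cases hdis : ∀ i j, Ψ (γ i) = Ψ (γ j) → i = j
  · -- the monomial case
    refine ⟨b, fun g i => ?_⟩
    set v := W g *ᵥ b i with hv
    have hv' : v = W (g * γ i) *ᵥ x := by rw [hv, hb, mulVec_mulVec, ← map_mul]
    have hv0 : v ≠ 0 := by rw [hv']; exact hne0 _
    obtain ⟨j, hj⟩ : ∃ j, b.repr v j ≠ 0 := by
      by_contra hcon
      push Not at hcon
      apply hv0
      rw [← b.sum_repr v]
      exact Finset.sum_eq_zero fun j _ => by rw [hcon j, zero_smul]
    refine ⟨j, b.repr v j, ?_⟩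
    conv_lhs => rw [← b.sum_repr v]
    rw [Finset.sum_eq_single j]
    · intro j' _ hj'
      by_contra hcon
      have h1 : b.repr v j' ≠ 0 := fun h0 => hcon (by rw [h0, zero_smul])
      rw [hv'] at h1 hj
      exact hj' (hdis _ _ ((hrep _ _ h1).symm.trans (hrep _ _ hj)))
    · intro h'; exact absurd (Finset.mem_univ j) h'
  · exfalso
    push Not at hdis
    obtain ⟨i, j, hij, hne'⟩ := hdis
    have hall : ∀ l, Ψ (γ l) = Ψ (γ i) := by
      intro l
      by_contra hl
      set g := γ l * (γ i)⁻¹ with hg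
      have e1 : g * γ i = γ l := by rw [hg, inv_mul_cancel_right]
      have e2 : Ψ (g * γ j) = Ψ (γ l) := by rw [← hΨmul g _ _ hij, e1]
      have h1 : ∀ m, m ≠ l → b.repr (W (g * γ j) *ᵥ x) m = 0 := by
        intro m hm
        by_contra hm0
        have h2 := hrep _ _ hm0
        rw [e2] at h2
        have m1 : m ≠ i := by rintro rfl; exact hl h2
        have m2 : m ≠ j := by rintro rfl; exact hl (h2.trans hij.symm)
        have l1 : l ≠ i := by rintro rfl; exact hl rfl
        have l2 : l ≠ j := by rintro rfl; exact hl hij.symm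
        exact fin3 i j l m hne' hm m1 m2 l1 l2
      have h3 : W (g * γ j) *ᵥ x = b.repr (W (g * γ j) *ᵥ x) l • b l := by
        conv_lhs => rw [← b.sum_repr (W (g * γ j) *ᵥ x)]
        rw [Finset.sum_eq_single l]
        · intro m _ hm
          rw [h1 m hm, zero_smul]
        · intro h'; exact absurd (Finset.mem_univ l) h'
      set d := b.repr (W (g * γ j) *ᵥ x) l with hd
      have h4 : W g *ᵥ (b j) = W g *ᵥ (d • b i) := by
        rw [mulVec_smul, hb, hb, mulVec_mulVec, mulVec_mulVec, ← map_mul, ← map_mul, e1, h3, hb]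
      have h5 : b j = d • b i := by
        have h6 := congrArg (fun w => W g⁻¹ *ᵥ w) h4
        simpa [mulVec_mulVec, ← map_mul] using h6
      have h7 := congrArg (fun w => b.repr w j) h5
      simp [hne'] at h7
    apply hne
    intro A hA
    have h1 : ∀ v : Fin 3 → k, A *ᵥ v = Ψ (γ i) ⟨A, hA⟩ • v := by
      intro v
      conv_lhs => rw [← b.sum_repr v]
      conv_rhs => rw [← b.sum_repr v]
      rw [Matrix.mulVec_sum, Finset.smul_sum]
      refine Finset.sum_congr rfl fun l _ => ?_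
      have h2 := hΨ (γ l) ⟨A, hA⟩
      rw [hall l, ← hb] at h2
      rw [mulVec_smul, h2, smul_comm]
    set t := Ψ (γ i) ⟨A, hA⟩ with ht
    have h3 : A = t • (1 : Matrix (Fin 3) (Fin 3) k) := by
      rw [← sub_eq_zero]
      apply eq_zero_of_mulVec
      intro v
      rw [sub_mulVec, h1, smul_mulVec, one_mulVec, sub_self]
    have h4 := h A hA
    have h5 : (1 : Matrix (Fin 3) (Fin 3) k) - A = (1 - t) • (1 : Matrix (Fin 3) (Fin 3) k) := by
      rw [sub_smul, one_smul, ← h3]
    rw [h5, det_smul, det_one, mul_one] at h4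
    have h6 : 1 - t = 0 := (pow_eq_zero_iff (Fintype.card_ne_zero)).mp h4
    rw [h3, show t = 1 by linear_combination -h6, one_smul]

/-- A semisimple representation of dimension three with a nontrivial invariant subspace has an
invariant line. -/
theorem exists_eig (hss : SS (lin Z.subtype)) (U : Submodule k (Fin 3 → k)) (hU0 : U ≠ ⊥)
    (hU1 : U ≠ ⊤) (hU : ∀ A ∈ Z, ∀ x ∈ U, A *ᵥ x ∈ U) :
    ∃ x : Fin 3 → k, x ≠ 0 ∧ ∀ A ∈ Z, ∃ c : k, A *ᵥ x = c • x := by
  by_contra hcon
  have h3 : Module.finrank k (Fin 3 → k) = 3 := by simp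
  have hone : ∀ U' : Submodule k (Fin 3 → k), Irr (lin Z.subtype) U' →
      2 ≤ Module.finrank k U' := by
    rintro U' ⟨h0, hinv, -⟩
    by_contra hlt
    have h1 : Module.finrank k U' ≠ 0 := by
      rw [Ne, Submodule.finrank_eq_zero]
      exact h0
    have h2 : Module.finrank k U' = 1 := by omega
    obtain ⟨v, hv, hvs⟩ := finrank_eq_one_iff'.mp h2
    apply hcon
    refine ⟨v.1, fun h => hv (Subtype.ext h), fun A hA => ?_⟩
    obtain ⟨c, hc⟩ := hvs ⟨A *ᵥ v.1, hinv ⟨A, hA⟩ v.1 v.2⟩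
    exact ⟨c, (congrArg Subtype.val hc).symm⟩
  -- one irreducible subspace
  obtain ⟨U1, hU1'⟩ : ∃ U1, Irr (lin Z.subtype) U1 := by
    by_contra hno
    push Not at hno
    have h1 : sSup {U : Submodule k (Fin 3 → k) | Irr (lin Z.subtype) U} = ⊤ := hss
    have h2 : {U : Submodule k (Fin 3 → k) | Irr (lin Z.subtype) U} = ∅ := by
      ext U
      simp [hno U]
    rw [h2, sSup_empty] at h1
    exact bot_ne_top h1
  by_cases htop : U1 = ⊤
  · rcases hU1'.2.2 U (by rw [htop]; exact le_top) (fun g x hx => hU g.1 g.2 x hx) with h | h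
    · exact hU0 h
    · exact hU1 (h.trans htop)
  obtain ⟨U2, hU2, hU2'⟩ : ∃ U2, Irr (lin Z.subtype) U2 ∧ ¬ U2 ≤ U1 := by
    by_contra hno
    push Not at hno
    apply htop
    rw [eq_top_iff]
    have h1 : sSup {U : Submodule k (Fin 3 → k) | Irr (lin Z.subtype) U} = ⊤ := hss
    rw [← h1]
    exact sSup_le hno
  have hinf : U1 ⊓ U2 = ⊥ := by
    rcases hU2.2.2 (U1 ⊓ U2) inf_le_right (fun g x hx =>
      ⟨hU1'.2.1 g x hx.1, hU2.2.1 g x hx.2⟩) with h | h
    · exact h
    · exact absurd (inf_eq_right.mp h) hU2'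
  have h4 := Submodule.finrank_sup_add_finrank_inf_eq U1 U2
  rw [hinf, finrank_bot, add_zero] at h4
  have h5 := Submodule.finrank_le (U1 ⊔ U2)
  have h6 := hone U1 hU1'
  have h7 := hone U2 hU2
  rw [h3] at h5
  omega

end mono

section det

variable {k Γ : Type} [Field k] [Group Γ] {W : Γ →* Matrix (Fin 3) (Fin 3) k}
  (Z : Submonoid (Matrix (Fin 3) (Fin 3) k))

theorem det_three (Y : Matrix (Fin 3) (Fin 3) k) : 2 * (1 - Y).det =
    2 * (1 - Y.trace - Y.det) + Y.trace ^ 2 - (Y * Y).trace := by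
  rw [det_fin_three, det_fin_three]
  simp only [Fin.sum_univ_three, Matrix.trace, Matrix.diag_apply, Matrix.mul_apply,
    Matrix.sub_apply]
  simp
  ring

theorem adj_three (Y : Matrix (Fin 3) (Fin 3) k) : 2 * Y.adjugate.trace =
    Y.trace ^ 2 - (Y * Y).trace := by
  rw [adjugate_fin_three]
  simp only [Fin.sum_univ_three, Matrix.trace, Matrix.diag_apply, Matrix.mul_apply]
  simp
  ring

/-- the determinant as a representation by matrices -/
def dM : Z →* Matrix Unit Unit k where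
  toFun A := A.1.det • 1
  map_one' := by simp
  map_mul' A B := by
    change (A.1 * B.1).det • (1 : Matrix Unit Unit k) = _
    rw [det_mul, smul_mul_smul_comm, mul_one]

theorem SS_unit (ρ : Z →* Matrix Unit Unit k) : SS (lin ρ) := by
  refine SS_of_irr (Γ := Unit) _ 1 (fun γ g => ⟨g, by simp⟩) fun U _ => ?_
  have h1 : Module.finrank k (Unit → k) = 1 := by simp
  by_cases hb : U = ⊥
  · exact Or.inl hb
  · right
    apply Submodule.eq_top_of_finrank_eq
    have h2 : Module.finrank k U ≠ 0 := by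
      rw [Ne, Submodule.finrank_eq_zero]
      exact hb
    have h3 := Submodule.finrank_le U
    omega

include W in
theorem three_det [CharZero k] (hW : IsIrreducible W)
    (hc : ∀ γ, ∀ A ∈ Z, W γ * A * W γ⁻¹ ∈ Z)
    (h : ∀ A ∈ Z, (1 - A).det = 0) (hne : ¬ ∀ A ∈ Z, A = 1) : ∀ A ∈ Z, A.det = 1 := by
  by_contra hcon
  push Not at hcon
  obtain ⟨A₀, hA₀, hA₀'⟩ := hcon
  obtain ⟨e1, e2, -, -⟩ := no_fixed Z hW hc h hne
  have hun : ∀ v : Unit → k, A₀.det • v = v → v = 0 := by
    intro v hv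
    have h1 : (A₀.det - 1) • v = 0 := by rw [sub_smul, hv, one_smul, sub_self]
    exact (smul_eq_zero.mp h1).resolve_left (sub_ne_zero.mpr hA₀')
  obtain ⟨c, c1, c2, c3⟩ := separateM Z.subtype (dM Z) (SS_sub Z hW hc) (SS_unit Z _)
    (fun v hv => e1 v fun A hA => hv ⟨A, hA⟩)
    (fun v hv => hun v (by
      have h1 := hv ⟨A₀, hA₀⟩
      change (A₀.det • (1 : Matrix Unit Unit k)) *ᵥ v = v at h1
      rwa [smul_mulVec, one_mulVec] at h1))
    (fun v hv => e2 v fun A hA => hv ⟨A, hA⟩)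
    (fun v hv => hun v (by
      have h1 := hv ⟨A₀, hA₀⟩
      change (A₀.det • (1 : Matrix Unit Unit k))ᵀ *ᵥ v = v at h1
      rwa [transpose_smul, transpose_one, smul_mulVec, one_mulVec] at h1))
  set c' : MonoidAlgebra k Z := c.sum fun g a => MonoidAlgebra.single g a with hc'
  have g1 : hε Z c' = 1 := by
    unfold hε
    rw [hc', to_MA, ← c1]
    simp [Finsupp.sum]
  have g2 : hw Z c' = 0 := by
    unfold hw
    rw [hc', to_MA, ← c2]
  have g3 : hd Z c' = 0 := by
    unfold hd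
    rw [hc', to_MA]
    have h1 := congrFun (congrFun c3 ()) ()
    rw [Finsupp.sum, Matrix.sum_apply, Matrix.zero_apply] at h1
    rw [← h1, Finsupp.sum]
    refine Finset.sum_congr rfl fun g _ => ?_
    change c g • g.1.det = (c g • (g.1.det • (1 : Matrix Unit Unit k))) () ()
    simp
  obtain ⟨b, b1, b2, -, b3, b4, -⟩ := idem_elt Z c' g1
  let tr : Matrix (Fin 3) (Fin 3) k →ₗ[k] k := Matrix.traceLinearMap (Fin 3) k k
  let tr2 : Matrix (Fin 3 × Fin 3) (Fin 3 × Fin 3) k →ₗ[k] k :=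
    Matrix.traceLinearMap (Fin 3 × Fin 3) k k
  let L : MonoidAlgebra k Z →ₗ[k] k :=
    (2 : k) • ((hε Z).toLinearMap - tr.comp (hw Z).toLinearMap -
      (hd Z).toLinearMap) + tr2.comp (hs Z).toLinearMap -
      tr2.comp ((LinearMap.mulLeft k (tau : Matrix (Fin 3 × Fin 3) (Fin 3 × Fin 3) k)).comp
        (hs Z).toLinearMap)
  have hL : ∀ d, L d = 2 * (hε Z d - (hw Z d).trace - hd Z d) +
      (hs Z d).trace - (tau * hs Z d).trace := fun d => rfl
  have h4 : L b = 0 := by
    apply lin_ext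
    intro A
    rw [hL, single_hε, single_hw, single_hs, single_hd, trace_kron', trace_tau_kron]
    have := det_three A.1
    rw [h A.1 A.2] at this
    linear_combination -this
  rw [hL, b1, b2 g2, b3 g3, trace_zero] at h4
  obtain ⟨m, hm⟩ := trace_half b4 (tau_hs Z b)
  have h6 : (1 : k) + m = 0 := by
    have h7 : (2 : k) * (1 + m) = 0 := by linear_combination h4 - hm
    exact (mul_eq_zero.mp h7).resolve_left two_ne_zero
  have h7 : ((1 + m : ℕ) : k) = 0 := by push_cast; linear_combination h6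
  have h8 : (1 + m : ℕ) = 0 := by exact_mod_cast h7
  omega

end det

section form

variable {k Γ : Type} [Field k] [Group Γ] {W : Γ →* Matrix (Fin 3) (Fin 3) k}
  (Z : Submonoid (Matrix (Fin 3) (Fin 3) k))

/-- the matrix of a linear map -/
theorem exists_matrix {m : Type} [Fintype m] [DecidableEq m] (P : (m → k) →ₗ[k] (m → k)) :
    ∃ B : Matrix m m k, ∀ v, B *ᵥ v = P v :=
  ⟨LinearMap.toMatrix' P, fun v => LinearMap.toMatrix'_mulVec P v⟩

theorem ext_mulVec {m : Type} [Fintype m] [DecidableEq m] {A B : Matrix m m k}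
    (h : ∀ v, A *ᵥ v = B *ᵥ v) : A = B := by
  rw [← sub_eq_zero]
  apply eq_zero_of_mulVec
  intro v
  rw [sub_mulVec, h v, sub_self]

theorem isUnit_of_inj {m : Type} [Fintype m] [DecidableEq m] {B : Matrix m m k}
    (h : ∀ v, B *ᵥ v = 0 → v = 0) : B.det ≠ 0 := by
  intro h0
  obtain ⟨v, hv, hv'⟩ := exists_mulVec_eq_zero_iff.mpr h0
  exact hv (h v hv')

include W in
theorem exists_form [CharZero k] (hW : IsIrreducible W)
    (hc : ∀ γ, ∀ A ∈ Z, W γ * A * W γ⁻¹ ∈ Z) (hdet : ∀ A ∈ Z, A.det = 1)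
    (htr : ∀ A ∈ Z, A.trace = A.adjugate.trace)
    (hirr : ∀ U : Submodule k (Fin 3 → k), (∀ A ∈ Z, ∀ x ∈ U, A *ᵥ x ∈ U) → U = ⊥ ∨ U = ⊤) :
    ∃ B : Matrix (Fin 3) (Fin 3) k, B ≠ 0 ∧ ∀ A ∈ Z, Aᵀ * B * A = B := by
  by_contra hno
  push Not at hno
  have hno' : ∀ B : Matrix (Fin 3) (Fin 3) k, (∀ A ∈ Z, Aᵀ * B * A = B) → B = 0 := by
    intro B hB
    by_contra hB0
    obtain ⟨A, hA, hAB⟩ := hno B hB0
    exact hAB (hB A hA)
  have ha1 : ∀ A ∈ Z, A.adjugate * A = 1 := fun A hA => by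
    rw [adjugate_mul, hdet A hA, one_smul]
  have ha2 : ∀ A ∈ Z, A * A.adjugate = 1 := fun A hA => by
    rw [mul_adjugate, hdet A hA, one_smul]
  let χ : Z →* Module.End k ((Fin 3 → k) × (Fin 3 → k)) :=
    { toFun := fun g => LinearMap.prodMap (lin Z.subtype g) (lin (adjM Z) g)
      map_one' := by rw [map_one, map_one]; rfl
      map_mul' := fun g h => by rw [map_mul, map_mul]; rfl }
  have hχ : ∀ g x, χ g x = (lin Z.subtype g x.1, lin (adjM Z) g x.2) := fun g x => rfl
  let f : Module.End k ((Fin 3 → k) × (Fin 3 → k)) := LinearMap.prodMap LinearMap.id 0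
  have hf : ∀ P : Module.End k ((Fin 3 → k) × (Fin 3 → k)), (∀ g, P * χ g = χ g * P) →
      f * P = P * f := by
    intro P hP
    obtain ⟨B, hB⟩ := exists_matrix ((LinearMap.snd k (Fin 3 → k) (Fin 3 → k)).comp
      (P.comp (LinearMap.inl k (Fin 3 → k) (Fin 3 → k))))
    obtain ⟨C, hC⟩ := exists_matrix ((LinearMap.fst k (Fin 3 → k) (Fin 3 → k)).comp
      (P.comp (LinearMap.inr k (Fin 3 → k) (Fin 3 → k))))
    have hB' : ∀ v, (P (v, 0)).2 = B *ᵥ v := fun v => (hB v).symm
    have hC' : ∀ v, (P (0, v)).1 = C *ᵥ v := fun v => (hC v).symm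
    have hBA : ∀ A ∈ Z, B * A = A.adjugateᵀ * B := by
      intro A hA
      apply ext_mulVec
      intro v
      have h3 := congrArg (fun t : Module.End k ((Fin 3 → k) × (Fin 3 → k)) => (t (v, 0)).2)
        (hP ⟨A, hA⟩)
      simp only [Module.End.mul_apply, hχ, map_zero] at h3
      change (P (A *ᵥ v, 0)).2 = A.adjugateᵀ *ᵥ (P (v, 0)).2 at h3
      rw [hB', hB', mulVec_mulVec, mulVec_mulVec] at h3
      exact h3
    have hCA : ∀ A ∈ Z, C * A.adjugateᵀ = A * C := by
      intro A hA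
      apply ext_mulVec
      intro v
      have h3 := congrArg (fun t : Module.End k ((Fin 3 → k) × (Fin 3 → k)) => (t (0, v)).1)
        (hP ⟨A, hA⟩)
      simp only [Module.End.mul_apply, hχ, map_zero] at h3
      change (P (0, A.adjugateᵀ *ᵥ v)).1 = A *ᵥ (P (0, v)).1 at h3
      rw [hC', hC', mulVec_mulVec, mulVec_mulVec] at h3
      exact h3
    have hB0 : B = 0 := by
      apply hno'
      intro A hA
      rw [mul_assoc, hBA A hA, ← mul_assoc, ← transpose_mul, ha1 A hA, transpose_one, one_mul]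
    have hC0 : C = 0 := by
      by_contra hC0
      -- the range of `C` is invariant
      rcases hirr (LinearMap.range C.mulVecLin) (by
        rintro A hA _ ⟨v, rfl⟩
        refine ⟨A.adjugateᵀ *ᵥ v, ?_⟩
        rw [mulVecLin_apply, mulVecLin_apply, mulVec_mulVec, mulVec_mulVec, hCA A hA]) with h | h
      · apply hC0
        apply eq_zero_of_mulVec
        intro v
        have : C.mulVecLin v ∈ LinearMap.range C.mulVecLin := ⟨v, rfl⟩
        rw [h, Submodule.mem_bot] at this
        exact this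
      · have hinj : Function.Injective C.mulVecLin :=
          LinearMap.injective_iff_surjective.mpr (LinearMap.range_eq_top.mp h)
        have hdC : C.det ≠ 0 := isUnit_of_inj fun v hv => hinj (by
          rw [mulVecLin_apply, hv, map_zero])
        have hCu : IsUnit C.det := isUnit_iff_ne_zero.mpr hdC
        have h5 := hno' C⁻¹ (by
          intro A hA
          have h6 : C * A.adjugateᵀ * Aᵀ = A * C * Aᵀ := by rw [hCA A hA]
          rw [mul_assoc, ← transpose_mul, ha2 A hA, transpose_one, mul_one] at h6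
          -- `C = A C Aᵀ`
          have h7 : Aᵀ * C⁻¹ * A * C = C⁻¹ * C := by
            have h8 : A * C = C * A.adjugateᵀ := (hCA A hA).symm
            rw [mul_assoc, h8]
            calc Aᵀ * C⁻¹ * (C * A.adjugateᵀ) = Aᵀ * (C⁻¹ * C) * A.adjugateᵀ := by
                  simp only [mul_assoc]
              _ = C⁻¹ * C := by
                rw [nonsing_inv_mul _ hCu, mul_one, ← transpose_mul, ha1 A hA, transpose_one]
          have h9 := congrArg (fun X => X * C⁻¹) h7
          simp only [mul_assoc, mul_nonsing_inv _ hCu, mul_one] at h9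
          rw [← mul_assoc] at h9
          exact h9)
        have h6 : C⁻¹ * C = 1 := nonsing_inv_mul _ hCu
        rw [h5, zero_mul] at h6
        exact zero_ne_one h6
    apply LinearMap.ext
    rintro ⟨a, v⟩
    have h5 : ((a, v) : (Fin 3 → k) × (Fin 3 → k)) = (a, 0) + (0, v) := by simp
    change f (P (a, v)) = P (f (a, v))
    have h6 : f (a, v) = (a, 0) := by simp [f]
    have h7 : f (P (a, v)) = ((P (a, v)).1, 0) := by simp [f]
    rw [h6, h7, h5, map_add]
    apply Prod.ext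
    · simp [hC', hC0]
    · simp [hB', hB0]
  obtain ⟨c, hc'⟩ := (Finsupp.mem_span_range_iff_exists_finsupp).mp
    (dcomm χ (SS.prod χ hχ (SS_sub Z hW hc) (SS_adj Z hW hc)) f hf)
  have h1 : (c.sum fun g a => a • g.1) = (1 : Matrix (Fin 3) (Fin 3) k) := by
    apply ext_mulVec
    intro v
    have h3 := congrArg (fun t : Module.End k ((Fin 3 → k) × (Fin 3 → k)) => (t (v, 0)).1) hc'
    simp only [Finsupp.sum, LinearMap.sum_apply, LinearMap.smul_apply, hχ, Prod.fst_sum,
      Prod.smul_fst, lin_apply] at h3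
    have h4 : (f (v, 0)).1 = v := rfl
    rw [h4] at h3
    rw [Finsupp.sum, Matrix.sum_mulVec, one_mulVec]
    refine Eq.trans (Finset.sum_congr rfl fun g _ => ?_) h3
    rw [smul_mulVec]; rfl
  have h2 : (c.sum fun g a => a • (g.1.adjugateᵀ)) = (0 : Matrix (Fin 3) (Fin 3) k) := by
    apply ext_mulVec
    intro v
    have h3 := congrArg (fun t : Module.End k ((Fin 3 → k) × (Fin 3 → k)) => (t (0, v)).2) hc'
    simp only [Finsupp.sum, LinearMap.sum_apply, LinearMap.smul_apply, hχ, Prod.snd_sum,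
      Prod.smul_snd, lin_apply] at h3
    have h4 : (f (0, v)).2 = 0 := rfl
    rw [h4] at h3
    rw [Finsupp.sum, Matrix.sum_mulVec, zero_mulVec]
    refine Eq.trans (Finset.sum_congr rfl fun g _ => ?_) h3
    rw [smul_mulVec]; rfl
  have t1 := congrArg Matrix.trace h1
  have t2 := congrArg Matrix.trace h2
  rw [Finsupp.sum, trace_sum, trace_one, Fintype.card_fin] at t1
  rw [Finsupp.sum, trace_sum, trace_zero] at t2
  have t3 : ((3 : ℕ) : k) = 0 := by
    rw [← t1, ← t2]
    refine Finset.sum_congr rfl fun g _ => ?_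
    rw [trace_smul, trace_smul, trace_transpose, htr g.1 g.2]
  have t4 : (3 : ℕ) = 0 := by exact_mod_cast t3
  omega

include W in
theorem essSelfDual_of_form [IsAlgClosed k] (hc : ∀ γ, ∀ A ∈ Z, W γ * A * W γ⁻¹ ∈ Z)
    (hdet : ∀ A ∈ Z, A.det = 1)
    (hirr : ∀ U : Submodule k (Fin 3 → k), (∀ A ∈ Z, ∀ x ∈ U, A *ᵥ x ∈ U) → U = ⊥ ∨ U = ⊤)
    (B : Matrix (Fin 3) (Fin 3) k) (hB0 : B ≠ 0) (hB : ∀ A ∈ Z, Aᵀ * B * A = B) :
    EssSelfDual W := by
  have ha1 : ∀ A ∈ Z, A.adjugate * A = 1 := fun A hA => by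
    rw [adjugate_mul, hdet A hA, one_smul]
  have ha2 : ∀ A ∈ Z, A * A.adjugate = 1 := fun A hA => by
    rw [mul_adjugate, hdet A hA, one_smul]
  have hBA : ∀ X : Matrix (Fin 3) (Fin 3) k, (∀ A ∈ Z, Aᵀ * X * A = X) → ∀ A ∈ Z,
      X * A = A.adjugateᵀ * X := by
    intro X hX A hA
    have h1 := congrArg (fun Y => A.adjugateᵀ * Y) (hX A hA)
    simp only [← mul_assoc, ← transpose_mul, ha2 A hA, transpose_one, one_mul] at h1
    exact h1
  have hBu : IsUnit B.det := by
    rw [isUnit_iff_ne_zero]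
    let N : Submodule k (Fin 3 → k) := LinearMap.ker B.mulVecLin
    rcases hirr N (by
      intro A hA x hx
      rw [LinearMap.mem_ker, mulVecLin_apply] at hx ⊢
      rw [mulVec_mulVec, hBA B hB A hA, ← mulVec_mulVec, hx, mulVec_zero]) with h | h
    · apply isUnit_of_inj
      intro v hv
      have : v ∈ N := by rw [LinearMap.mem_ker, mulVecLin_apply, hv]
      rw [h] at this
      exact (Submodule.mem_bot k).mp this
    · exfalso
      apply hB0
      apply eq_zero_of_mulVec
      intro v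
      have : v ∈ N := by rw [h]; trivial
      rw [LinearMap.mem_ker, mulVecLin_apply] at this
      exact this
  refine ⟨B, hB0, fun γ => ?_⟩
  set C := (W γ)ᵀ * B * W γ with hC
  have hWW : W γ * W γ⁻¹ = 1 := W_inv γ
  have hCZ : ∀ A ∈ Z, Aᵀ * C * A = C := by
    intro A hA
    have h1 : W γ * A = (W γ * A * W γ⁻¹) * W γ := by
      rw [mul_assoc, W_inv', mul_one]
    have h2 := hB _ (hc γ A hA)
    calc Aᵀ * C * A = (W γ * A)ᵀ * B * (W γ * A) := by
          rw [hC, transpose_mul]; simp only [mul_assoc]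
      _ = (W γ)ᵀ * ((W γ * A * W γ⁻¹)ᵀ * B * (W γ * A * W γ⁻¹)) * W γ := by
          conv_lhs => rw [h1, transpose_mul]
          simp only [mul_assoc]
      _ = C := by rw [h2]
  -- the matrix `B⁻¹ C` commutes with `Z`
  set D := B⁻¹ * C with hD
  have hDA : ∀ A ∈ Z, D * A = A * D := by
    intro A hA
    have h1 : B * (A * D) = B * (D * A) := by
      calc B * (A * D) = A.adjugateᵀ * (B * B⁻¹) * C := by
            rw [hD, ← mul_assoc, hBA B hB A hA]; simp only [mul_assoc]
        _ = A.adjugateᵀ * C := by rw [mul_nonsing_inv _ hBu, mul_one]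
        _ = C * A := (hBA C hCZ A hA).symm
        _ = B * (D * A) := by
          rw [hD, ← mul_assoc, ← mul_assoc, mul_nonsing_inv _ hBu, one_mul]
    have h2 := congrArg (fun X => B⁻¹ * X) h1
    simp only [← mul_assoc, nonsing_inv_mul _ hBu, one_mul] at h2
    exact h2.symm
  obtain ⟨c, hcr⟩ := IsAlgClosed.exists_root D.charpoly (by
    rw [Matrix.charpoly_degree_eq_dim]; simp)
  rw [isRoot_charpoly_iff] at hcr
  obtain ⟨v, hv, hvc⟩ := hcr
  let U : Submodule k (Fin 3 → k) := LinearMap.ker (D - c • (1 : Matrix (Fin 3) (Fin 3) k)).mulVecLin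
  have hU : ∀ x, x ∈ U ↔ D *ᵥ x = c • x := by
    intro x
    rw [LinearMap.mem_ker, mulVecLin_apply, sub_mulVec, smul_mulVec, one_mulVec, sub_eq_zero]
  rcases hirr U (by
    intro A hA x hx
    rw [hU] at hx ⊢
    rw [mulVec_mulVec, hDA A hA, ← mulVec_mulVec, hx, mulVec_smul]) with h | h
  · exfalso
    have : v ∈ U := (hU v).mpr hvc
    rw [h] at this
    exact hv ((Submodule.mem_bot k).mp this)
  · refine ⟨c, ?_⟩
    have h1 : D = c • (1 : Matrix (Fin 3) (Fin 3) k) := by
      apply ext_mulVec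
      intro w
      have : w ∈ U := by rw [h]; trivial
      rw [smul_mulVec, one_mulVec]
      exact (hU w).mp this
    have h2 : B * D = C := by rw [hD, ← mul_assoc, mul_nonsing_inv _ hBu, one_mul]
    rw [← h2, h1, mul_smul_comm, mul_one]

end form

section three

variable {k Γ : Type} [Field k] [IsAlgClosed k] [CharZero k] [Group Γ]
  {W : Γ →* Matrix (Fin 3) (Fin 3) k}

/-- **Rank three.** If `W` is neither monomial nor self-dual up to a twist, an invariant submonoid
whose elements have the eigenvalue one is trivial. -/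
theorem three_trivial (hW : IsIrreducible W) (hmon : ¬ Monomial W) (hdual : ¬ EssSelfDual W)
    (Z : Submonoid (Matrix (Fin 3) (Fin 3) k)) (hc : ∀ γ, ∀ A ∈ Z, W γ * A * W γ⁻¹ ∈ Z)
    (h : ∀ A ∈ Z, (1 - A).det = 0) : ∀ A ∈ Z, A = 1 := by
  by_contra hne
  have hdet := three_det Z hW hc h hne
  have htr : ∀ A ∈ Z, A.trace = A.adjugate.trace := by
    intro A hA
    have h1 := det_three A
    rw [h A hA, hdet A hA, ← sub_eq_zero] at h1
    have h2 := adj_three A
    have h3 : (2 : k) * (A.trace - A.adjugate.trace) = 0 := by linear_combination h1 - h2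
    exact sub_eq_zero.mp ((mul_eq_zero.mp h3).resolve_left two_ne_zero)
  have hirr : ∀ U : Submodule k (Fin 3 → k), (∀ A ∈ Z, ∀ x ∈ U, A *ᵥ x ∈ U) →
      U = ⊥ ∨ U = ⊤ := by
    intro U hU
    by_contra hcon
    rw [not_or] at hcon
    obtain ⟨x, hx, hxZ⟩ := exists_eig Z (SS_sub Z hW hc) U hcon.1 hcon.2 hU
    exact hmon (mono_of_eig Z hW hc h hne x hx hxZ)
  obtain ⟨B, hB0, hB⟩ := exists_form Z hW hc hdet htr hirr
  exact hdual (essSelfDual_of_form Z hc hdet hirr B hB0 hB)

end three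

end Pool.Agent.V8H88.LR
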