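import Pool.Agent.V8H88.LR.Sep
import Pool.Agent.V8H88.GO.Grp
import Pool.Agent.V8H88.GO.Subq

/-!
# Rank four: one common eigenvalue
-/

set_option autoImplicit false

namespace Pool.Agent.V8H88.LR

open Matrix Polynomial Pool.Agent.V8H88.GO

section tau

variable {k : Type} [Field k] {n : Type} [Fintype n] [DecidableEq n]

/-- the exchange of the factors -/
def tau : Matrix (n × n) (n × n) k := Matrix.of fun p q => if q = (p.2, p.1) then 1 else 0

theorem tau_mul (M : Matrix (n × n) (n × n) k) (p q : n × n) :
    ((tau : Matrix (n × n) (n × n) k) * M) p q = M (p.2, p.1) q := by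
  rw [Matrix.mul_apply, Finset.sum_eq_single (p.2, p.1)]
  · simp [tau]
  · intro b _ hb
    simp [tau, hb]
  · intro h; exact absurd (Finset.mem_univ _) h

theorem mul_tau (M : Matrix (n × n) (n × n) k) (p q : n × n) :
    (M * (tau : Matrix (n × n) (n × n) k)) p q = M p (q.2, q.1) := by
  rw [Matrix.mul_apply, Finset.sum_eq_single (q.2, q.1)]
  · simp [tau]
  · intro b _ hb
    have : q ≠ (b.2, b.1) := by
      rintro rfl
      exact hb rfl
    simp [tau, this]
  · intro h; exact absurd (Finset.mem_univ _) h

theorem tau_tau : (tau * tau : Matrix (n × n) (n × n) k) = 1 := by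
  ext p q
  rw [tau_mul, Matrix.one_apply]
  simp only [tau, Matrix.of_apply]
  congr 1
  exact propext ⟨fun h => h.symm, fun h => h.symm⟩

theorem tau_kron (A : Matrix n n k) : (tau : Matrix (n × n) (n × n) k) * kroneckerMap (· * ·) A A =
    kroneckerMap (· * ·) A A * tau := by
  ext p q
  rw [tau_mul, mul_tau, kroneckerMap_apply, kroneckerMap_apply, mul_comm]

theorem trace_kron' (A : Matrix n n k) : (kroneckerMap (· * ·) A A).trace = A.trace ^ 2 := by
  rw [Matrix.trace_kronecker, pow_two]

theorem trace_tau_kron (A : Matrix n n k) :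
    ((tau : Matrix (n × n) (n × n) k) * kroneckerMap (· * ·) A A).trace = (A * A).trace := by
  rw [Matrix.trace, Matrix.trace, Fintype.sum_prod_type]
  refine Finset.sum_congr rfl fun i _ => ?_
  rw [Matrix.diag_apply, Matrix.mul_apply]
  refine Finset.sum_congr rfl fun j _ => ?_
  rw [Matrix.diag_apply, tau_mul, kroneckerMap_apply, mul_comm]

end tau

section lin

variable {k : Type} [Field k] {n : Type} [Fintype n] [DecidableEq n] (Z : Submonoid (Matrix n n k))

/-- the transposed adjugates -/
def adjM : Z →* Matrix n n k where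
  toFun A := A.1.adjugateᵀ
  map_one' := by simp
  map_mul' A B := by
    change ((A.1 * B.1).adjugate)ᵀ = _
    rw [adjugate_mul_distrib, transpose_mul]

/-- the tensor squares -/
def sqM : Z →* Matrix (n × n) (n × n) k where
  toFun A := kroneckerMap (· * ·) A.1 A.1
  map_one' := by simp
  map_mul' A B := by
    change kroneckerMap (· * ·) (A.1 * B.1) (A.1 * B.1) = _
    rw [mul_kronecker_mul]

/-- the determinants -/
def detM : Z →* k where
  toFun A := A.1.det
  map_one' := by simp
  map_mul' A B := by
    change (A.1 * B.1).det = _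
    rw [det_mul]

/-- the augmentation -/
noncomputable def hε : MonoidAlgebra k Z →ₐ[k] k := MonoidAlgebra.lift k k Z 1

/-- the linear extension of the inclusion -/
noncomputable def hw : MonoidAlgebra k Z →ₐ[k] Matrix n n k := MonoidAlgebra.lift k _ Z Z.subtype

/-- the linear extension of the transposed adjugates -/
noncomputable def hw' : MonoidAlgebra k Z →ₐ[k] Matrix n n k := MonoidAlgebra.lift k _ Z (adjM Z)

/-- the linear extension of the tensor squares -/
noncomputable def hs : MonoidAlgebra k Z →ₐ[k] Matrix (n × n) (n × n) k :=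
  MonoidAlgebra.lift k _ Z (sqM Z)

/-- the linear extension of the determinants -/
noncomputable def hd : MonoidAlgebra k Z →ₐ[k] k := MonoidAlgebra.lift k _ Z (detM Z)

/-- the linear extension of a function of the form `det (1 - A)` -/
theorem lin_ext (L : MonoidAlgebra k Z →ₗ[k] k) (h : ∀ A : Z, L (MonoidAlgebra.single A 1) = 0)
    (c : MonoidAlgebra k Z) : L c = 0 := by
  induction c using MonoidAlgebra.induction_linear with
  | zero => rw [map_zero]
  | add x y hx hy => rw [map_add, hx, hy, add_zero]
  | single A a =>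
    have h1 : (MonoidAlgebra.single A a : MonoidAlgebra k Z) = a • MonoidAlgebra.single A 1 := by
      rw [MonoidAlgebra.smul_single', mul_one]
    rw [h1, map_smul, h, smul_zero]

theorem tau_hs (c : MonoidAlgebra k Z) : tau * hs Z c = hs Z c * tau := by
  induction c using MonoidAlgebra.induction_linear with
  | zero => rw [map_zero, mul_zero, zero_mul]
  | add x y hx hy => rw [map_add, mul_add, add_mul, hx, hy]
  | single A a =>
    unfold hs
    rw [MonoidAlgebra.lift_single]
    rw [mul_smul_comm, smul_mul_assoc]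
    congr 1
    exact tau_kron A.1

theorem eval_zero_aeval {B : Type} [Ring B] [Algebra k B] (q : k[X]) (h : q.eval 0 = 0) :
    aeval (0 : B) q = 0 := by
  rw [← coeff_zero_eq_aeval_zero', coeff_zero_eq_eval_zero, h, map_zero]

/-- A suitable element of the monoid algebra: it is one in the trivial representation, zero in `W`
and in the representation by the transposed adjugates, and its images in the tensor square and in the
determinant are idempotent. -/
theorem idem_elt (c : MonoidAlgebra k Z) (hε1 : hε Z c = 1) :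
    ∃ b : MonoidAlgebra k Z, hε Z b = 1 ∧ (hw Z c = 0 → hw Z b = 0) ∧ (hw' Z c = 0 → hw' Z b = 0) ∧
      (hd Z c = 0 → hd Z b = 0) ∧
      hs Z b * hs Z b = hs Z b ∧ hd Z b * hd Z b = hd Z b := by
  set R : Matrix (n × n) (n × n) k × k := (hs Z c, hd Z c) with hR
  set p : k[X] := (hs Z c).charpoly * (X - C (hd Z c)) with hp
  have hp0 : p ≠ 0 := mul_ne_zero (Matrix.charpoly_monic _).ne_zero (X_sub_C_ne_zero _)
  have hfst : ∀ q : k[X], (aeval R q).1 = aeval (hs Z c) q := fun q =>
    (Polynomial.aeval_algHom_apply (AlgHom.fst k (Matrix (n × n) (n × n) k) k) R q).symm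
  have hsnd : ∀ q : k[X], (aeval R q).2 = aeval (hd Z c) q := fun q =>
    (Polynomial.aeval_algHom_apply (AlgHom.snd k (Matrix (n × n) (n × n) k) k) R q).symm
  have hpR : aeval R p = 0 := by
    apply Prod.ext
    · rw [hfst, hp, map_mul, Matrix.aeval_self_charpoly, zero_mul]; rfl
    · rw [hsnd, hp, map_mul]
      simp
  obtain ⟨q, hq0, hq1, hqi⟩ := exists_idem R p hp0 hpR
  refine ⟨aeval c q, ?_, ?_, ?_, ?_, ?_, ?_⟩
  · rw [← Polynomial.aeval_algHom_apply, hε1]
    rw [coe_aeval_eq_eval, hq1]
  · intro h
    rw [← Polynomial.aeval_algHom_apply, h, eval_zero_aeval q hq0]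
  · intro h
    rw [← Polynomial.aeval_algHom_apply, h, eval_zero_aeval q hq0]
  · intro h
    rw [← Polynomial.aeval_algHom_apply, h, eval_zero_aeval q hq0]
  · rw [← Polynomial.aeval_algHom_apply, ← hfst]
    exact congrArg Prod.fst hqi
  · rw [← Polynomial.aeval_algHom_apply, ← hsnd]
    exact congrArg Prod.snd hqi

theorem single_hε (A : Z) : hε Z (MonoidAlgebra.single A 1) = 1 := by
  unfold hε; rw [MonoidAlgebra.lift_single, one_smul]; rfl

theorem single_hw (A : Z) : hw Z (MonoidAlgebra.single A 1) = A.1 := by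
  unfold hw; rw [MonoidAlgebra.lift_single, one_smul]; rfl

theorem single_hw' (A : Z) : hw' Z (MonoidAlgebra.single A 1) = A.1.adjugateᵀ := by
  unfold hw'; rw [MonoidAlgebra.lift_single, one_smul]; rfl

theorem single_hs (A : Z) : hs Z (MonoidAlgebra.single A 1) = kroneckerMap (· * ·) A.1 A.1 := by
  unfold hs; rw [MonoidAlgebra.lift_single, one_smul]; rfl

theorem single_hd (A : Z) : hd Z (MonoidAlgebra.single A 1) = A.1.det := by
  unfold hd; rw [MonoidAlgebra.lift_single, one_smul]; rfl

/-- the trace of `(1 - τ) / 2` times an idempotent which commutes with `τ` -/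
theorem trace_half [CharZero k] {T : Matrix (n × n) (n × n) k} (hT : T * T = T)
    (hc : tau * T = T * tau) : ∃ m : ℕ, T.trace - (tau * T).trace = 2 * m := by
  set P : Matrix (n × n) (n × n) k := (2⁻¹ : k) • (1 - tau) with hP
  have h2 : (2 : k) ≠ 0 := two_ne_zero
  have hPP : P * P = P := by
    rw [hP, smul_mul_smul_comm, sub_mul, one_mul, mul_sub, mul_one, tau_tau]
    have : (1 : Matrix (n × n) (n × n) k) - tau - (tau - 1) = (2 : k) • (1 - tau) := by
      rw [two_smul]; abel
    rw [this, smul_smul]
    congr 1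
    field_simp
  have hPT : P * T = T * P := by
    rw [hP, smul_mul_assoc, mul_smul_comm, sub_mul, mul_sub, one_mul, mul_one, hc]
  have hid : (P * T) * (P * T) = P * T := by
    calc (P * T) * (P * T) = P * (T * P) * T := by simp only [mul_assoc]
      _ = P * (P * T) * T := by rw [hPT]
      _ = (P * P) * (T * T) := by simp only [mul_assoc]
      _ = P * T := by rw [hPP, hT]
  obtain ⟨m, hm⟩ := trace_idem _ hid
  refine ⟨m, ?_⟩
  rw [← hm, hP, smul_mul_assoc, sub_mul, one_mul, trace_smul, trace_sub, smul_eq_mul]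
  field_simp

end lin

section four

variable {k : Type} [Field k]

theorem det_four (Y : Matrix (Fin 4) (Fin 4) k) : 2 * (1 - Y).det =
    2 * (1 - Y.trace - Y.adjugate.trace + Y.det) + Y.trace ^ 2 - (Y * Y).trace := by
  have h1 : Y.adjugate.trace = ∑ i : Fin 4, (Y.submatrix i.succAbove i.succAbove).det := by
    rw [Matrix.trace]
    refine Finset.sum_congr rfl fun i _ => ?_
    rw [Matrix.diag_apply, Matrix.adjugate_fin_succ_eq_det_submatrix, ← two_mul, pow_mul]
    simp
  rw [h1, Fin.sum_univ_four]
  simp only [Matrix.det_fin_three, Matrix.submatrix_apply]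
  rw [Matrix.det_succ_row_zero, Matrix.det_succ_row_zero]
  simp only [Fin.sum_univ_four, Matrix.det_fin_three, Matrix.submatrix_apply, Matrix.trace,
    Matrix.diag_apply, Matrix.mul_apply, Matrix.sub_apply]
  simp [Fin.succAbove, Matrix.one_apply]
  ring

/-- the contradiction in rank four -/
theorem four_core [CharZero k] (Z : Submonoid (Matrix (Fin 4) (Fin 4) k))
    (h : ∀ A ∈ Z, (1 - A).det = 0) (c : MonoidAlgebra k Z) (h1 : hε Z c = 1) (h2 : hw Z c = 0)
    (h3 : hw' Z c = 0) : False := by
  obtain ⟨b, b1, b2, b3, -, b4, b5⟩ := idem_elt Z c h1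
  let tr : Matrix (Fin 4) (Fin 4) k →ₗ[k] k := Matrix.traceLinearMap (Fin 4) k k
  let tr2 : Matrix (Fin 4 × Fin 4) (Fin 4 × Fin 4) k →ₗ[k] k :=
    Matrix.traceLinearMap (Fin 4 × Fin 4) k k
  let L : MonoidAlgebra k Z →ₗ[k] k :=
    (2 : k) • ((hε Z).toLinearMap - tr.comp (hw Z).toLinearMap - tr.comp (hw' Z).toLinearMap +
      (hd Z).toLinearMap) + tr2.comp (hs Z).toLinearMap -
      tr2.comp ((LinearMap.mulLeft k (tau : Matrix (Fin 4 × Fin 4) (Fin 4 × Fin 4) k)).comp
        (hs Z).toLinearMap)
  have hL : ∀ d, L d = 2 * (hε Z d - (hw Z d).trace - (hw' Z d).trace + hd Z d) +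
      (hs Z d).trace - (tau * hs Z d).trace := fun d => rfl
  have h4 : L b = 0 := by
    apply lin_ext
    intro A
    rw [hL, single_hε, single_hw, single_hw', single_hs, single_hd, trace_kron', trace_tau_kron,
      trace_transpose]
    have := det_four A.1
    rw [h A.1 A.2] at this
    linear_combination -this
  rw [hL, b1, b2 h2, b3 h3, trace_zero] at h4
  obtain ⟨m, hm⟩ := trace_half b4 (tau_hs Z b)
  have h5 : hd Z b = 0 ∨ hd Z b = 1 := by
    have : hd Z b * (hd Z b - 1) = 0 := by linear_combination b5
    rcases mul_eq_zero.mp this with h | h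
    · exact Or.inl h
    · exact Or.inr (sub_eq_zero.mp h)
  have h6 : (1 : k) + hd Z b + m = 0 := by
    have h7 : (2 : k) * (1 + hd Z b + m) = 0 := by linear_combination h4 - hm
    exact (mul_eq_zero.mp h7).resolve_left two_ne_zero
  rcases h5 with h5 | h5
  · rw [h5] at h6
    have h7 : ((1 + m : ℕ) : k) = 0 := by push_cast; linear_combination h6
    have h8 : (1 + m : ℕ) = 0 := by exact_mod_cast h7
    omega
  · rw [h5] at h6
    have h7 : ((2 + m : ℕ) : k) = 0 := by push_cast; linear_combination h6
    have h8 : (2 + m : ℕ) = 0 := by exact_mod_cast h7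
    omega

end four

end Pool.Agent.V8H88.LR
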