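import Pool.Agent.V8H88.GO.Any

/-!
# One common eigenvalue: reduction to invariant submonoids
-/

set_option autoImplicit false

namespace Pool.Agent.V8H88.LR

open Matrix Pool.Agent.V8H88.GO Polynomial

section group

variable {k Γ : Type} [Field k] [Group Γ] {n m : Type} [Fintype n] [DecidableEq n] [Fintype m]
  [DecidableEq m] (V : Γ →* Matrix n n k) (W : Γ →* Matrix m m k)

/-- the submonoid of the matrices of the trivial points -/
def ZM : Submonoid (Matrix m m k) where
  carrier := {A | ∃ χ, Triv V W χ ∧ matW V W χ = A}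
  mul_mem' := by
    rintro _ _ ⟨χ, h1, rfl⟩ ⟨ψ, h2, rfl⟩
    exact ⟨pmul V W χ ψ, triv_pmul V W h1 h2, matW_pmul V W χ ψ⟩
  one_mem' := ⟨evg V W 1, triv_evg V W, by
    ext i j
    change W 1 i j = _
    rw [map_one]⟩

/-- one common eigenvalue -/
def com {R : Type} [CommRing R] (A : Matrix n n R) (B : Matrix m m R) : R :=
  (kroneckerMap (· * ·) A (1 : Matrix m m R) - kroneckerMap (· * ·) (1 : Matrix n n R) B).det

theorem map_com {R S : Type} [CommRing R] [CommRing S] (φ : R →+* S) (A : Matrix n n R)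
    (B : Matrix m m R) : φ (com A B) = com (A.map φ) (B.map φ) := by
  unfold com
  rw [RingHom.map_det]
  congr 1
  ext ⟨i, i'⟩ ⟨j, j'⟩
  simp only [RingHom.mapMatrix_apply, map_apply, Matrix.sub_apply, kroneckerMap_apply, map_sub,
    map_mul]
  congr 1
  · congr 1
    rw [Matrix.one_apply, Matrix.one_apply]; split_ifs <;> simp
  · congr 1
    rw [Matrix.one_apply, Matrix.one_apply]; split_ifs <;> simp

theorem com_val (g : Γ) : (com (gV V W) (gW V W)).1 g = com (V g) (W g) :=
  map_com (evg V W g : RB V W →+* k) (gV V W) (gW V W)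

/-- **One common eigenvalue.** -/
theorem of_trivial [IsAlgClosed k] [CharZero k] [Nonempty n] (hW : IsIrreducible W)
    (h : ∀ g, com (V g) (W g) = 0)
    (ht : ∀ Z : Submonoid (Matrix m m k), (∀ γ, ∀ A ∈ Z, W γ * A * W γ⁻¹ ∈ Z) →
      (∀ A ∈ Z, ∃ B ∈ Z, B * A = 1) → (∀ A ∈ Z, (1 - A).det = 0) → ∀ A ∈ Z, A = 1) :
    ∃ (ι : Type) (x : Fintype ι) (y : DecidableEq ι) (U : Γ →* Matrix ι ι k),
      IsTensorPower V ι x y U ∧ IsSubquotient W U := by
  refine exists_sub V hW (entries_mem V W fun χ hχ => ?_)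
  have D : com (gV V W) (gW V W) = 0 :=
    Subtype.ext (funext fun g => (com_val V W g).trans (h g))
  refine ht (ZM V W) ?_ ?_ ?_ _ ⟨χ, hχ, rfl⟩
  · rintro γ _ ⟨ψ, h3, rfl⟩
    exact ⟨pconj _ W γ ψ, triv_pconj _ W γ h3, matW_pconj _ W γ ψ⟩
  · rintro _ ⟨ψ, h3, rfl⟩
    exact ⟨matW V W (pinv V W ψ), ⟨pinv V W ψ, triv_pinv V W h3, rfl⟩, matW_pinv_mul V W ψ⟩
  · rintro _ ⟨ψ, hψ, rfl⟩
    have h3 := map_com (ψ : RB V W →+* k) (gV V W) (gW V W)
    rw [D, map_zero] at h3
    have h4 : (gV V W).map (ψ : RB V W →+* k) = 1 := map_gV V W hψ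
    have h5 : (gW V W).map (ψ : RB V W →+* k) = matW V W ψ := rfl
    rw [h4, h5] at h3
    unfold com at h3
    have h6 : kroneckerMap (· * ·) (1 : Matrix n n k) (1 : Matrix m m k) -
        kroneckerMap (· * ·) (1 : Matrix n n k) (matW V W ψ) =
        kroneckerMap (· * ·) (1 : Matrix n n k) (1 - matW V W ψ) := by
      ext ⟨i, i'⟩ ⟨j, j'⟩
      simp only [Matrix.sub_apply, kroneckerMap_apply]
      rw [mul_sub]
    rw [h6, det_kronecker, det_one, one_pow, one_mul] at h3
    by_contra hne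
    exact pow_ne_zero _ hne h3.symm

theorem com_dense [TopologicalSpace k] [IsTopologicalRing k] [T2Space k] [TopologicalSpace Γ]
    [IsTopologicalGroup Γ] (hV : Continuous V) (hW : Continuous W) (D : Set Γ) (hD : Dense D)
    (h : ∀ g ∈ D, com (V g) (W g) = 0) (g : Γ) : com (V g) (W g) = 0 := by
  have h3 := Continuous.ext_on hD (RB_cont V W hV hW _ (com (gV V W) (gW V W)).2)
    (continuous_const (y := (0 : k))) (by
      intro g hg
      change (com (gV V W) (gW V W)).1 g = 0
      rw [com_val, h g hg])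
  rw [← com_val V W g]
  exact congrFun h3 g

end group

section arith

open NumberField IsDedekindDomain Pool.Agent.W401.Cheb

variable {K : Type} [Field K] [NumberField K] (H : Cohomology K)
variable {E : Type} [Field E] [NumberField E] {n : ℕ} (f : CompatibleSystem K E n)

/-- one common root at a dense set of primes gives one common eigenvalue for all elements -/
theorem com_of_roots (x : H.Obj) (S : Set (HeightOneSpectrum (𝓞 K))) (hS : FrobDense K S)
    (hroot : ∀ v ∈ S, ¬ IsCoprime (f.poly v) ((H.frob x v).map (algebraMap ℚ E)))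
    (p : ℕ) [hpp : Fact p.Prime] (hp : p ∈ f.primes) (ι : E →+* PadicAlgCl p) (g : GK K) :
    com (H.rep p x g) (f.rep p ι g) = 0 := by
  set T : Set (HeightOneSpectrum (𝓞 K)) :=
    f.bad ∪ H.bad x ∪ {v : HeightOneSpectrum (𝓞 K) | (p : 𝓞 K) ∈ v.asIdeal} with hT
  have hTf : T.Finite :=
    (f.finite_bad.union (H.finite_bad x)).union (finite_over K p hpp.out)
  refine com_dense _ _ (H.continuous_rep p x) (f.continuous_rep p ι hp) _ (hS T hTf) ?_ g
  rintro σ ⟨v, hv, hvT, hσ⟩
  rw [hT, Set.mem_union, Set.mem_union, not_or, not_or] at hvT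
  obtain ⟨c, h1, h2⟩ := exists_common_root ι (hroot v hv)
  refine det_kron_eq_zero _ _ c ?_ ?_
  · rw [H.charpoly_frob p x v hvT.1.2 hvT.2 σ hσ]
    rwa [Polynomial.map_map, rat_comp] at h2
  · rw [f.charpoly_frob p ι hp v hvT.1.1 hvT.2 σ hσ]
    exact h1

end arith

end Pool.Agent.V8H88.LR
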