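import Pool.Agent.V8H88.LR.Four

/-!
# Separation for representations by matrices; rank four
-/

set_option autoImplicit false

namespace Pool.Agent.V8H88.LR

open Matrix Pool.Agent.V8H88.GO

section lin

variable {k Y : Type} [Field k] [Monoid Y] {m : Type} [Fintype m] [DecidableEq m]

/-- the linear maps of a representation by matrices -/
def lin (ρ : Y →* Matrix m m k) : Y →* Module.End k (m → k) where
  toFun g := Matrix.toLin' (ρ g)
  map_one' := by rw [map_one, Matrix.toLin'_one]; rfl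
  map_mul' g h := by rw [map_mul, Matrix.toLin'_mul]; rfl

theorem lin_apply (ρ : Y →* Matrix m m k) (g : Y) (v : m → k) : lin ρ g v = ρ g *ᵥ v := rfl

theorem eq_zero_of_mulVec {A : Matrix m m k} (h : ∀ v : m → k, A *ᵥ v = 0) : A = 0 := by
  apply Matrix.toLin'.injective
  ext w : 2
  simp only [LinearMap.comp_apply, LinearMap.single_apply, toLin'_apply]
  rw [h, zero_mulVec]

variable {m' : Type} [Fintype m'] [DecidableEq m']

/-- **Separation.** -/
theorem separateM (ρ : Y →* Matrix m m k) (σ : Y →* Matrix m' m' k) (h1 : SS (lin ρ))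
    (h2 : SS (lin σ)) (f1 : ∀ v : m → k, (∀ g, ρ g *ᵥ v = v) → v = 0)
    (f2 : ∀ v : m' → k, (∀ g, σ g *ᵥ v = v) → v = 0)
    (l1 : ∀ v : m → k, (∀ g, (ρ g)ᵀ *ᵥ v = v) → v = 0)
    (l2 : ∀ v : m' → k, (∀ g, (σ g)ᵀ *ᵥ v = v) → v = 0) :
    ∃ c : Y →₀ k, (c.sum fun _ a => a) = 1 ∧ (c.sum fun g a => a • ρ g) = 0 ∧
      (c.sum fun g a => a • σ g) = 0 := by
  let ψ : Y →* Module.End k ((m → k) × (m' → k)) :=
    { toFun := fun g => LinearMap.prodMap (lin ρ g) (lin σ g)
      map_one' := by rw [map_one, map_one]; rfl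
      map_mul' := fun g h => by rw [map_mul, map_mul]; rfl }
  have hψ : ∀ g x, ψ g x = (lin ρ g x.1, lin σ g x.2) := fun g x => rfl
  obtain ⟨c, hc1, hc2⟩ := separate ψ (SS.prod ψ hψ h1 h2) (by
    rintro ⟨v, v'⟩ h
    have e1 := f1 v fun g => congrArg Prod.fst (h g)
    have e2 := f2 v' fun g => congrArg Prod.snd (h g)
    rw [e1, e2]; rfl) (by
    intro l hl
    have e1 : (fun i => l (Pi.single i 1, 0) : m → k) = 0 := by
      apply l1
      intro g
      funext j
      have h3 := hl g (Pi.single j 1, 0)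
      rw [hψ] at h3
      simp only [map_zero] at h3
      rw [← h3]
      have h4 : ((lin ρ g (Pi.single j 1), 0) : (m → k) × (m' → k)) =
          ∑ i, ρ g i j • ((Pi.single i 1, 0) : (m → k) × (m' → k)) := by
        apply Prod.ext
        · rw [Prod.fst_sum]
          funext i
          rw [Finset.sum_apply, lin_apply]
          simp [Pi.single_apply]
        · rw [Prod.snd_sum]; simp
      rw [h4, map_sum]
      simp only [map_smul, smul_eq_mul, mulVec, dotProduct, transpose_apply]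
    have e2 : (fun i => l (0, Pi.single i 1) : m' → k) = 0 := by
      apply l2
      intro g
      funext j
      have h3 := hl g (0, Pi.single j 1)
      rw [hψ] at h3
      simp only [map_zero] at h3
      rw [← h3]
      have h4 : ((0, lin σ g (Pi.single j 1)) : (m → k) × (m' → k)) =
          ∑ i, σ g i j • ((0, Pi.single i 1) : (m → k) × (m' → k)) := by
        apply Prod.ext
        · rw [Prod.fst_sum]; simp
        · rw [Prod.snd_sum]
          funext i
          rw [Finset.sum_apply, lin_apply]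
          simp [Pi.single_apply]
      rw [h4, map_sum]
      simp only [map_smul, smul_eq_mul, mulVec, dotProduct, transpose_apply]
    apply LinearMap.ext
    rintro ⟨v, v'⟩
    have h5 : ((v, v') : (m → k) × (m' → k)) = ∑ i, v i • ((Pi.single i 1, 0) : (m → k) × (m' → k)) +
        ∑ i, v' i • ((0, Pi.single i 1) : (m → k) × (m' → k)) := by
      apply Prod.ext
      · rw [Prod.fst_add, Prod.fst_sum, Prod.fst_sum]
        funext i
        simp [Pi.single_apply]
      · rw [Prod.snd_add, Prod.snd_sum, Prod.snd_sum]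
        funext i
        simp [Pi.single_apply]
    rw [h5, map_add, map_sum, map_sum]
    simp only [map_smul]
    have e1' : ∀ i, l (Pi.single i 1, 0) = 0 := fun i => congrFun e1 i
    have e2' : ∀ i, l (0, Pi.single i 1) = 0 := fun i => congrFun e2 i
    simp [e1', e2'])
  refine ⟨c, hc1, ?_, ?_⟩
  · apply eq_zero_of_mulVec
    intro v
    have h3 := congrArg (fun t : Module.End k ((m → k) × (m' → k)) => (t (v, 0)).1) hc2
    simp only [Finsupp.sum, LinearMap.sum_apply, LinearMap.smul_apply, hψ, Prod.fst_sum,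
      LinearMap.zero_apply, Prod.fst_zero, Prod.smul_fst, lin_apply] at h3
    rw [Finsupp.sum, Matrix.sum_mulVec, ← h3]
    refine Finset.sum_congr rfl fun g _ => ?_
    rw [smul_mulVec]
  · apply eq_zero_of_mulVec
    intro v
    have h3 := congrArg (fun t : Module.End k ((m → k) × (m' → k)) => (t (0, v)).2) hc2
    simp only [Finsupp.sum, LinearMap.sum_apply, LinearMap.smul_apply, hψ, Prod.snd_sum,
      LinearMap.zero_apply, Prod.snd_zero, Prod.smul_snd, lin_apply] at h3
    rw [Finsupp.sum, Matrix.sum_mulVec, ← h3]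
    refine Finset.sum_congr rfl fun g _ => ?_
    rw [smul_mulVec]

end lin

section dual

variable {k Γ : Type} [Field k] [Group Γ] {m : Type} [Fintype m] [DecidableEq m]
  {W : Γ →* Matrix m m k}

/-- the dual of an irreducible representation -/
theorem irr_dual (hW : IsIrreducible W) : IsIrreducible (dual W) := by
  refine ⟨hW.1, fun M hM => ?_⟩
  -- the annihilator
  let N : Submodule k (m → k) :=
    { carrier := {x | ∀ y ∈ M, y ⬝ᵥ x = 0}
      add_mem' := fun {a b} ha hb y hy => by rw [dotProduct_add, ha y hy, hb y hy, add_zero]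
      zero_mem' := fun y _ => dotProduct_zero y
      smul_mem' := fun c x hx y hy => by rw [dotProduct_smul, hx y hy, smul_zero] }
  have hN : ∀ x, x ∈ N ↔ ∀ y ∈ M, y ⬝ᵥ x = 0 := fun x => Iff.rfl
  rcases hW.2 N (fun g x hx y hy => by
    have h1 := hM g⁻¹ y hy
    have h2 : dual W g⁻¹ = (W g)ᵀ := by
      change (W (g⁻¹)⁻¹)ᵀ = _
      rw [inv_inv]
    rw [h2] at h1
    have h3 := hx _ h1
    rw [mulVec_transpose] at h3
    rw [dotProduct_mulVec]
    exact h3) with h | h
  · right
    -- every functional vanishing on `M` is zero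
    rw [eq_top_iff]
    intro z _
    by_contra hz
    obtain ⟨f, hf, hfM⟩ := Submodule.exists_le_ker_of_notMem hz
    have h4 : (fun i => f (Pi.single i 1) : m → k) ∈ N := by
      intro y hy
      have h5 : f y = 0 := hfM hy
      rw [← h5]
      conv_rhs => rw [← Finset.univ_sum_single y, map_sum]
      simp only [dotProduct]
      refine Finset.sum_congr rfl fun i _ => ?_
      have h6 : (Pi.single i (y i) : m → k) = y i • Pi.single i 1 := by
        rw [← Pi.single_smul, smul_eq_mul, mul_one]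
      rw [h6, map_smul, smul_eq_mul]
    rw [h, Submodule.mem_bot] at h4
    apply hf
    rw [← Finset.univ_sum_single z, map_sum]
    refine Finset.sum_eq_zero fun i _ => ?_
    have h6 : (Pi.single i (z i) : m → k) = z i • Pi.single i 1 := by
      rw [← Pi.single_smul, smul_eq_mul, mul_one]
    rw [h6, map_smul, congrFun h4 i, Pi.zero_apply, smul_zero]
  · left
    rw [eq_bot_iff]
    intro y hy
    rw [Submodule.mem_bot]
    funext i
    have h5 : (Pi.single i (1 : k) : m → k) ∈ N := by rw [h]; trivial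
    have h6 := h5 y hy
    simpa using h6

end dual

section rank

variable {k Γ : Type} [Field k] [Group Γ] {m : Type} [Fintype m] [DecidableEq m]
  {W : Γ →* Matrix m m k} (Z : Submonoid (Matrix m m k))

theorem W_inv (γ : Γ) : W γ * W γ⁻¹ = 1 := by rw [← map_mul, mul_inv_cancel, map_one]

theorem W_inv' (γ : Γ) : W γ⁻¹ * W γ = 1 := by rw [← map_mul, inv_mul_cancel, map_one]

include W in
theorem SS_sub (hW : IsIrreducible W) (hc : ∀ γ, ∀ A ∈ Z, W γ * A * W γ⁻¹ ∈ Z) :
    SS (lin Z.subtype) := by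
  have := hW.1
  refine SS_of_irr _ (lin W) (fun γ A => ?_) (fun U hU => hW.2 U hU)
  refine ⟨⟨W γ⁻¹ * A.1 * W γ, by have := hc γ⁻¹ A.1 A.2; rwa [inv_inv] at this⟩, ?_⟩
  ext v i
  change (A.1 *ᵥ (W γ *ᵥ _)) i = (W γ *ᵥ ((W γ⁻¹ * A.1 * W γ) *ᵥ _)) i
  rw [conj_key]

include W in
theorem SS_adj (hW : IsIrreducible W) (hc : ∀ γ, ∀ A ∈ Z, W γ * A * W γ⁻¹ ∈ Z) :
    SS (lin (adjM Z)) := by
  have := hW.1
  have hdual := irr_dual hW
  refine SS_of_irr _ (lin (dual W)) (fun γ A => ?_) (fun U hU => hdual.2 U hU)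
  refine ⟨⟨W γ⁻¹ * A.1 * W γ, by have := hc γ⁻¹ A.1 A.2; rwa [inv_inv] at this⟩, ?_⟩
  have hd : (W γ).det * (W γ⁻¹).det = 1 := by rw [← det_mul, W_inv, det_one]
  have hadj : (W γ).adjugate = (W γ).det • W γ⁻¹ := by
    calc (W γ).adjugate = (W γ).adjugate * (W γ * W γ⁻¹) := by rw [W_inv, mul_one]
      _ = (W γ).det • W γ⁻¹ := by rw [← mul_assoc, adjugate_mul, smul_mul_assoc, one_mul]
  have key : A.1.adjugateᵀ * (W γ⁻¹)ᵀ = (W γ⁻¹)ᵀ * ((W γ⁻¹ * A.1 * W γ).adjugate)ᵀ := by
    rw [← transpose_mul, ← transpose_mul]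
    congr 1
    rw [adjugate_mul_distrib, adjugate_mul_distrib, hadj]
    rw [mul_assoc, mul_assoc, adjugate_mul, mul_smul_comm, mul_one, smul_mul_assoc,
      mul_smul_comm, smul_smul, hd, one_smul]
  ext v i
  change (A.1.adjugateᵀ *ᵥ ((W γ⁻¹)ᵀ *ᵥ _)) i =
    ((W γ⁻¹)ᵀ *ᵥ (((W γ⁻¹ * A.1 * W γ).adjugate)ᵀ *ᵥ _)) i
  rw [mulVec_mulVec, mulVec_mulVec, key]

include W in
/-- Either the invariant submonoid is trivial, or it has no eigenvectors with the eigenvalue one or the
determinant, in `W` and in the dual of `W`. -/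
theorem no_fixed (hW : IsIrreducible W) (hc : ∀ γ, ∀ A ∈ Z, W γ * A * W γ⁻¹ ∈ Z)
    (h : ∀ A ∈ Z, (1 - A).det = 0) (hne : ¬ ∀ A ∈ Z, A = 1) :
    (∀ v : m → k, (∀ A ∈ Z, A *ᵥ v = v) → v = 0) ∧
    (∀ v : m → k, (∀ A ∈ Z, Aᵀ *ᵥ v = v) → v = 0) ∧
    (∀ v : m → k, (∀ A ∈ Z, A *ᵥ v = A.det • v) → v = 0) ∧
    (∀ v : m → k, (∀ A ∈ Z, Aᵀ *ᵥ v = A.det • v) → v = 0) := by
  have := hW.1
  have hdual := irr_dual hW
  set Zt : Set (Matrix m m k) := {B | ∃ A ∈ Z, Aᵀ = B} with hZt
  have hct : ∀ γ, ∀ B ∈ Zt, dual W γ * B * dual W γ⁻¹ ∈ Zt := by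
    rintro γ _ ⟨A, hA, rfl⟩
    refine ⟨W γ * A * W γ⁻¹, hc γ A hA, ?_⟩
    change _ = (W γ⁻¹)ᵀ * Aᵀ * (W (γ⁻¹)⁻¹)ᵀ
    rw [inv_inv, transpose_mul, transpose_mul, mul_assoc]
  have hsc : ∀ A ∈ Z, A = A.det • (1 : Matrix m m k) → A = 1 := by
    intro A hA hA1
    have h1 := h A hA
    have h2 : (1 : Matrix m m k) - A = (1 - A.det) • (1 : Matrix m m k) := by
      rw [sub_smul, one_smul, ← hA1]
    rw [h2, det_smul, det_one, mul_one] at h1
    have h3 : 1 - A.det = 0 := (pow_eq_zero_iff (Fintype.card_ne_zero)).mp h1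
    rw [hA1, show A.det = 1 by linear_combination -h3, one_smul]
  refine ⟨fun v hv => ?_, fun v hv => ?_, fun v hv => ?_, fun v hv => ?_⟩
  · by_contra hv0
    exact hne (eq_one_of_fixed hW Z hc v hv0 hv)
  · by_contra hv0
    apply hne
    intro A hA
    have h1 := eq_one_of_fixed hdual Zt hct v hv0 (by
      rintro _ ⟨B, hB, rfl⟩
      exact hv B hB) Aᵀ ⟨A, hA, rfl⟩
    rw [← transpose_transpose A, h1, transpose_one]
  · by_contra hv0
    apply hne
    intro A hA
    exact hsc A hA (eq_scalar_of_eig hW Z hc v hv0 hv A hA)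
  · by_contra hv0
    apply hne
    intro A hA
    have h1 := eq_scalar_of_eig hdual Zt hct v hv0 (by
      rintro _ ⟨B, hB, rfl⟩
      rw [det_transpose]
      exact hv B hB) Aᵀ ⟨A, hA, rfl⟩
    apply hsc A hA
    rw [det_transpose] at h1
    have h2 := congrArg Matrix.transpose h1
    rw [transpose_transpose, transpose_smul, transpose_one] at h2
    exact h2

/-- from finitely supported functions to the monoid algebra -/
theorem to_MA {B : Type} [Ring B] [Algebra k B] (ρ : Z →* B) (c : Z →₀ k) :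
    MonoidAlgebra.lift k B Z ρ (c.sum fun g a => MonoidAlgebra.single g a) =
      c.sum fun g a => a • ρ g := by
  rw [map_finsuppSum]
  simp only [MonoidAlgebra.lift_single]

end rank

section four

variable {k Γ : Type} [Field k] [CharZero k] [Group Γ]
  {W : Γ →* Matrix (Fin 4) (Fin 4) k}

/-- **Rank four.** An invariant submonoid whose elements have the eigenvalue one is trivial. -/
theorem four_trivial (hW : IsIrreducible W) (Z : Submonoid (Matrix (Fin 4) (Fin 4) k))
    (hc : ∀ γ, ∀ A ∈ Z, W γ * A * W γ⁻¹ ∈ Z) (h : ∀ A ∈ Z, (1 - A).det = 0) :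
    ∀ A ∈ Z, A = 1 := by
  by_contra hne
  obtain ⟨e1, e2, e3, e4⟩ := no_fixed Z hW hc h hne
  obtain ⟨c, c1, c2, c3⟩ := separateM Z.subtype (adjM Z) (SS_sub Z hW hc) (SS_adj Z hW hc)
    (fun v hv => e1 v fun A hA => hv ⟨A, hA⟩)
    (fun v hv => e4 v fun A hA => by
      have h1 : A.adjugateᵀ *ᵥ v = v := hv ⟨A, hA⟩
      have h2 := congrArg (fun w => Aᵀ *ᵥ w) h1
      rw [mulVec_mulVec, ← transpose_mul, adjugate_mul, transpose_smul, transpose_one,
        smul_mulVec, one_mulVec] at h2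
      exact h2.symm)
    (fun v hv => e2 v fun A hA => hv ⟨A, hA⟩)
    (fun v hv => e3 v fun A hA => by
      have h1 : (A.adjugateᵀ)ᵀ *ᵥ v = v := hv ⟨A, hA⟩
      rw [transpose_transpose] at h1
      have h2 := congrArg (fun w => A *ᵥ w) h1
      rw [mulVec_mulVec, mul_adjugate, smul_mulVec, one_mulVec] at h2
      exact h2.symm)
  refine four_core Z h (c.sum fun g a => MonoidAlgebra.single g a) ?_ ?_ ?_
  · unfold hε
    rw [to_MA, ← c1]
    simp [Finsupp.sum]
  · unfold hw
    rw [to_MA, ← c2]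
  · unfold hw'
    rw [to_MA, ← c3]

end four

end Pool.Agent.V8H88.LR
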