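import Mathlib

/-!
# Separation of the trivial representation in semisimple representations of monoids
-/

set_option autoImplicit false

namespace Pool.Agent.V8H88.LR

open Module

section ss

variable {k V Y : Type} [Field k] [AddCommGroup V] [Module k V] [Monoid Y]

/-- an irreducible invariant subspace -/
def Irr (φ : Y →* Module.End k V) (U : Submodule k V) : Prop :=
  U ≠ ⊥ ∧ (∀ g, ∀ x ∈ U, φ g x ∈ U) ∧
    ∀ U' ≤ U, (∀ g, ∀ x ∈ U', φ g x ∈ U') → U' = ⊥ ∨ U' = U

/-- the space is the sum of the irreducible invariant subspaces -/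
def SS (φ : Y →* Module.End k V) : Prop := sSup {U : Submodule k V | Irr φ U} = ⊤

theorem map_ne_bot' {V' : Type} [AddCommGroup V'] [Module k V'] {f : V →ₗ[k] V'}
    (hf : Function.Injective f) {U : Submodule k V} (hU : U ≠ ⊥) : U.map f ≠ ⊥ := by
  obtain ⟨x, hx, hx0⟩ := (Submodule.ne_bot_iff U).mp hU
  intro h
  have h1 : f x ∈ U.map f := ⟨x, hx, rfl⟩
  rw [h, Submodule.mem_bot] at h1
  exact hx0 (hf (by rw [h1, map_zero]))

/-- double commutant theorem -/
theorem dcomm [FiniteDimensional k V] (φ : Y →* Module.End k V) (hss : SS φ)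
    (f : Module.End k V)
    (hf : ∀ P : Module.End k V, (∀ g, P * φ g = φ g * P) → f * P = P * f) :
    f ∈ Submodule.span k (Set.range φ) := by
  classical
  set R : Subalgebra k (Module.End k V) := Algebra.adjoin k (Set.range φ) with hR
  have hsm : ∀ (r : R) (w : V), r • w = r.1 w := fun r w => rfl
  have hinv : ∀ U : Submodule k V, (∀ g, ∀ x ∈ U, φ g x ∈ U) → ∀ r : R, ∀ x ∈ U, r • x ∈ U := by
    rintro U hU ⟨r, hr⟩ x hx
    change r x ∈ U
    induction hr using Algebra.adjoin_induction generalizing x with
    | mem y hy =>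
      obtain ⟨g, rfl⟩ := hy
      exact hU g x hx
    | algebraMap c =>
      rw [Module.algebraMap_end_apply]
      exact U.smul_mem c hx
    | add a b _ _ ha hb => exact U.add_mem (ha x hx) (hb x hx)
    | mul a b _ _ ha hb => exact ha _ (hb x hx)
  have hss' : IsSemisimpleModule R V := by
    rw [← sSup_simples_eq_top_iff_isSemisimpleModule]
    set S : Submodule R V := sSup {m : Submodule R V | IsSimpleModule R m} with hS
    have h1 : (⊤ : Submodule k V) ≤ S.restrictScalars k := by
      have h0 : sSup {U : Submodule k V | Irr φ U} = ⊤ := hss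
      rw [← h0]
      refine sSup_le ?_
      rintro U ⟨hU0, hU, hmin⟩
      let UR : Submodule R V :=
        { carrier := U
          add_mem' := U.add_mem
          zero_mem' := U.zero_mem
          smul_mem' := fun r x hx => hinv U hU r x hx }
      have hsimple : IsSimpleModule R UR := by
        rw [isSimpleModule_iff_isAtom]
        refine ⟨?_, ?_⟩
        · intro hbot
          apply hU0
          rw [eq_bot_iff]
          intro x hx
          have : x ∈ UR := hx
          rw [hbot] at this
          exact this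
        · intro B hB
          have hB' : B.restrictScalars k ≤ U := fun x hx => hB.le hx
          rcases hmin (B.restrictScalars k) hB' (fun g x hx => by
            have h2 : (⟨φ g, Algebra.subset_adjoin ⟨g, rfl⟩⟩ : R) • x ∈ B := B.smul_mem _ hx
            exact h2) with h3 | h3
          · rw [eq_bot_iff]
            intro x hx
            have : x ∈ B.restrictScalars k := hx
            rw [h3] at this
            exact this
          · exfalso
            apply hB.not_ge
            intro x hx
            have : x ∈ U := hx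
            rw [← h3] at this
            exact this
      have h2 : UR ≤ S := le_sSup hsimple
      intro x hx
      exact h2 hx
    rw [eq_top_iff]
    intro x _
    exact h1 (Submodule.mem_top : x ∈ (⊤ : Submodule k V))
  have hall : f ∈ R := by
    let f' : Module.End (Module.End R V) V :=
      { toFun := fun w => f w
        map_add' := map_add f
        map_smul' := by
          intro P w
          let P' : Module.End k V :=
            { toFun := fun w => P w
              map_add' := map_add P
              map_smul' := fun c w => by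
                have h1 : c • w = (algebraMap k R c) • w := by
                  rw [hsm]
                  rfl
                have h2 : c • P w = (algebraMap k R c) • P w := by
                  rw [hsm]
                  rfl
                rw [h1, map_smul, RingHom.id_apply, h2] }
          have h3 := hf P' (fun g => by
            ext w
            have h4 : φ g w = (⟨φ g, Algebra.subset_adjoin ⟨g, rfl⟩⟩ : R) • w := rfl
            change P (φ g w) = φ g (P w)
            rw [h4, map_smul]
            rfl)
          exact congrArg (fun t : Module.End k V => t w) h3 }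
    obtain ⟨r, hr⟩ := jacobson_density (R := R) f' (Finset.univ.image (Module.finBasis k V))
    have h1 : f = r.1 := by
      refine (Module.finBasis k V).ext fun i => ?_
      exact hr (Module.finBasis k V i) (Finset.mem_image_of_mem _ (Finset.mem_univ i))
    rw [h1]
    exact r.2
  have h1 : f ∈ Subalgebra.toSubmodule R := hall
  rw [hR, Algebra.adjoin_eq_span, ← MonoidHom.coe_mrange, Submonoid.closure_eq] at h1
  exact h1

theorem le_sSup_irr_inr {V' : Type} [AddCommGroup V'] [Module k V'] (φ : Y →* Module.End k V)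
    (ψ : Y →* Module.End k V') (χ : Y →* Module.End k (V' × V))
    (hχ : ∀ g x, χ g x = (ψ g x.1, φ g x.2)) (hss : SS φ) :
    Submodule.map (LinearMap.inr k V' V) ⊤ ≤ sSup {U : Submodule k (V' × V) | Irr χ U} := by
  have h0 : sSup {U : Submodule k V | Irr φ U} = ⊤ := hss
  rw [← h0, Submodule.map_le_iff_le_comap]
  refine sSup_le ?_
  rintro U ⟨hU0, hU, hmin⟩
  rw [← Submodule.map_le_iff_le_comap]
  refine le_sSup ⟨?_, ?_, ?_⟩
  · exact map_ne_bot' LinearMap.inr_injective hU0
  · rintro g _ ⟨x, hx, rfl⟩
    rw [hχ]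
    refine ⟨φ g x, hU g x hx, ?_⟩
    simp
  · intro U' hU' hinv
    have h1 : U' = Submodule.map (LinearMap.inr k V' V) (U'.comap (LinearMap.inr k V' V)) := by
      rw [Submodule.map_comap_eq]
      refine (inf_eq_right.mpr ?_).symm
      refine hU'.trans ?_
      rw [Submodule.map_le_iff_le_comap]
      intro x _
      exact ⟨x, rfl⟩
    rcases hmin (U'.comap (LinearMap.inr k V' V)) (by
      intro x hx
      have h2 := hU' hx
      obtain ⟨y, hy, hyx⟩ := h2
      have h3 : y = x := LinearMap.inr_injective hyx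
      rwa [← h3]) (by
      intro g x hx
      have h2 := hinv g _ hx
      rw [hχ] at h2
      change LinearMap.inr k V' V (φ g x) ∈ U'
      convert h2 using 1
      simp) with h2 | h2
    · left
      rw [h1, h2, Submodule.map_bot]
    · right
      rw [h1, h2]

theorem le_sSup_irr_inl {V' : Type} [AddCommGroup V'] [Module k V'] (φ : Y →* Module.End k V)
    (ψ : Y →* Module.End k V') (χ : Y →* Module.End k (V × V'))
    (hχ : ∀ g x, χ g x = (φ g x.1, ψ g x.2)) (hss : SS φ) :
    Submodule.map (LinearMap.inl k V V') ⊤ ≤ sSup {U : Submodule k (V × V') | Irr χ U} := by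
  have h0 : sSup {U : Submodule k V | Irr φ U} = ⊤ := hss
  rw [← h0, Submodule.map_le_iff_le_comap]
  refine sSup_le ?_
  rintro U ⟨hU0, hU, hmin⟩
  rw [← Submodule.map_le_iff_le_comap]
  refine le_sSup ⟨?_, ?_, ?_⟩
  · exact map_ne_bot' LinearMap.inl_injective hU0
  · rintro g _ ⟨x, hx, rfl⟩
    rw [hχ]
    refine ⟨φ g x, hU g x hx, ?_⟩
    simp
  · intro U' hU' hinv
    have h1 : U' = Submodule.map (LinearMap.inl k V V') (U'.comap (LinearMap.inl k V V')) := by
      rw [Submodule.map_comap_eq]
      refine (inf_eq_right.mpr ?_).symm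
      refine hU'.trans ?_
      rw [Submodule.map_le_iff_le_comap]
      intro x _
      exact ⟨x, rfl⟩
    rcases hmin (U'.comap (LinearMap.inl k V V')) (by
      intro x hx
      have h2 := hU' hx
      obtain ⟨y, hy, hyx⟩ := h2
      have h3 : y = x := LinearMap.inl_injective hyx
      rwa [← h3]) (by
      intro g x hx
      have h2 := hinv g _ hx
      rw [hχ] at h2
      change LinearMap.inl k V V' (φ g x) ∈ U'
      convert h2 using 1
      simp) with h2 | h2
    · left
      rw [h1, h2, Submodule.map_bot]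
    · right
      rw [h1, h2]

/-- sums of two semisimple representations -/
theorem SS.prod {V' : Type} [AddCommGroup V'] [Module k V'] {φ : Y →* Module.End k V}
    {ψ : Y →* Module.End k V'} (χ : Y →* Module.End k (V × V'))
    (hχ : ∀ g x, χ g x = (φ g x.1, ψ g x.2)) (h1 : SS φ) (h2 : SS ψ) : SS χ := by
  unfold SS
  rw [eq_top_iff]
  rintro ⟨x, y⟩ -
  have h3 : ((x, y) : V × V') = LinearMap.inl k V V' x + LinearMap.inr k V V' y := by simp
  rw [h3]
  refine Submodule.add_mem _ ?_ ?_
  · exact le_sSup_irr_inl φ ψ χ hχ h1 ⟨x, trivial, rfl⟩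
  · exact le_sSup_irr_inr ψ φ χ hχ h2 ⟨y, trivial, rfl⟩

/-- the trivial representation -/
theorem SS_one : SS (1 : Y →* Module.End k k) := by
  unfold SS
  rw [eq_top_iff]
  refine le_sSup ⟨?_, fun g x _ => trivial, fun U' _ _ => ?_⟩
  · exact top_ne_bot
  · exact eq_bot_or_eq_top U'

/-- **Separation of the trivial representation.** -/
theorem separate [FiniteDimensional k V] (ψ : Y →* Module.End k V) (hss : SS ψ)
    (hfix : ∀ v : V, (∀ g, ψ g v = v) → v = 0)
    (hfun : ∀ l : V →ₗ[k] k, (∀ g v, l (ψ g v) = l v) → l = 0) :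
    ∃ c : Y →₀ k, (c.sum fun _ a => a) = 1 ∧ (c.sum fun g a => a • ψ g) = 0 := by
  let χ : Y →* Module.End k (k × V) :=
    { toFun := fun g => LinearMap.prodMap LinearMap.id (ψ g)
      map_one' := by rw [map_one]; rfl
      map_mul' := fun g h => by rw [map_mul]; rfl }
  have hχ : ∀ g x, χ g x = ((1 : Y →* Module.End k k) g x.1, ψ g x.2) := fun g x => rfl
  have h1 : SS χ := SS.prod χ hχ SS_one hss
  let f : Module.End k (k × V) := LinearMap.prodMap LinearMap.id 0
  have hf : ∀ P : Module.End k (k × V), (∀ g, P * χ g = χ g * P) → f * P = P * f := by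
    intro P hP
    have h2 : ∀ a : k, (P (a, 0)).2 = 0 := by
      intro a
      apply hfix
      intro g
      have h3 := congrArg (fun t : Module.End k (k × V) => (t (a, 0)).2) (hP g)
      simp only [Module.End.mul_apply, hχ] at h3
      rw [← h3]
      simp
    have h4 : ∀ v : V, (P (0, v)).1 = 0 := by
      let l : V →ₗ[k] k := (LinearMap.fst k k V).comp (P.comp (LinearMap.inr k k V))
      have hl : l = 0 := by
        apply hfun
        intro g v
        have h3 := congrArg (fun t : Module.End k (k × V) => (t (0, v)).1) (hP g)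
        simp only [Module.End.mul_apply, hχ] at h3
        simpa [l] using h3
      intro v
      have := LinearMap.congr_fun hl v
      simpa [l] using this
    apply LinearMap.ext
    rintro ⟨a, v⟩
    have h5 : ((a, v) : k × V) = (a, 0) + (0, v) := by simp
    change f (P (a, v)) = P (f (a, v))
    have h6 : f (a, v) = (a, 0) := by simp [f]
    have h7 : f (P (a, v)) = ((P (a, v)).1, 0) := by simp [f]
    rw [h6, h7, h5, map_add]
    apply Prod.ext
    · simp [h4]
    · simp [h2]
  obtain ⟨c, hc⟩ := (Finsupp.mem_span_range_iff_exists_finsupp).mp (dcomm χ h1 f hf)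
  refine ⟨c, ?_, ?_⟩
  · have h8 := congrArg (fun t : Module.End k (k × V) => (t (1, 0)).1) hc
    simp only [Finsupp.sum] at h8 ⊢
    rw [LinearMap.sum_apply, Prod.fst_sum] at h8
    simpa [f, χ] using h8
  · apply LinearMap.ext
    intro v
    have h8 := congrArg (fun t : Module.End k (k × V) => (t (0, v)).2) hc
    simp only [Finsupp.sum] at h8 ⊢
    rw [LinearMap.sum_apply, Prod.snd_sum] at h8
    rw [LinearMap.sum_apply]
    simpa [f, χ] using h8

/-- Clifford's theorem -/
theorem SS_of_irr [FiniteDimensional k V] [Nontrivial V] {Γ : Type} [Group Γ]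
    (φ : Y →* Module.End k V) (T : Γ →* Module.End k V)
    (hconj : ∀ (γ : Γ) (g : Y), ∃ g', φ g * T γ = T γ * φ g')
    (hirr : ∀ U : Submodule k V, (∀ γ, ∀ x ∈ U, T γ x ∈ U) → U = ⊥ ∨ U = ⊤) : SS φ := by
  have hT : ∀ γ x, T γ⁻¹ (T γ x) = x := by
    intro γ x
    have : T γ⁻¹ * T γ = 1 := by rw [← map_mul, inv_mul_cancel, map_one]
    exact congrArg (fun t : Module.End k V => t x) this
  have hT' : ∀ γ x, T γ (T γ⁻¹ x) = x := by
    intro γ x
    have : T γ * T γ⁻¹ = 1 := by rw [← map_mul, mul_inv_cancel, map_one]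
    exact congrArg (fun t : Module.End k V => t x) this
  have hinj : ∀ γ, Function.Injective (T γ) := fun γ x y h => by
    rw [← hT γ x, h, hT γ y]
  have hconj' : ∀ (γ : Γ) (g : Y), ∃ g', ∀ x, φ g (T γ x) = T γ (φ g' x) := by
    intro γ g
    obtain ⟨g', hg'⟩ := hconj γ g
    exact ⟨g', fun x => congrArg (fun t : Module.End k V => t x) hg'⟩
  -- images of invariant subspaces
  have himg : ∀ (γ : Γ) (U : Submodule k V), (∀ g, ∀ x ∈ U, φ g x ∈ U) →
      ∀ g, ∀ x ∈ U.map (T γ), φ g x ∈ U.map (T γ) := by
    rintro γ U hU g _ ⟨x, hx, rfl⟩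
    obtain ⟨g', hg'⟩ := hconj' γ g
    rw [hg']
    exact ⟨_, hU g' x hx, rfl⟩
  have hmm : ∀ (γ : Γ) (U : Submodule k V), (U.map (T γ)).map (T γ⁻¹) = U := by
    intro γ U
    ext x
    constructor
    · rintro ⟨_, ⟨y, hy, rfl⟩, rfl⟩
      rw [hT]; exact hy
    · intro hx
      exact ⟨T γ x, ⟨x, hx, rfl⟩, hT γ x⟩
  have hmm' : ∀ (γ : Γ) (U : Submodule k V), (U.map (T γ⁻¹)).map (T γ) = U := by
    intro γ U
    ext x
    constructor
    · rintro ⟨_, ⟨y, hy, rfl⟩, rfl⟩
      rw [hT']; exact hy
    · intro hx
      exact ⟨T γ⁻¹ x, ⟨x, hx, rfl⟩, hT' γ x⟩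
  have hIrr : ∀ (γ : Γ) (U : Submodule k V), Irr φ U → Irr φ (U.map (T γ)) := by
    rintro γ U ⟨hU0, hU, hmin⟩
    refine ⟨?_, himg γ U hU, ?_⟩
    · exact map_ne_bot' (hinj γ) hU0
    · intro U' hU' hinv
      rcases hmin (U'.map (T γ⁻¹)) (by
        rw [← hmm γ U]
        exact Submodule.map_mono hU') (himg γ⁻¹ U' hinv) with h | h
      · left
        rw [← hmm' γ U', h, Submodule.map_bot]
      · right
        rw [← h, hmm']
  rcases hirr (sSup {U : Submodule k V | Irr φ U}) (by
    intro γ x hx
    have h1 : (sSup {U : Submodule k V | Irr φ U}).map (T γ) ≤ sSup {U : Submodule k V | Irr φ U} := by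
      rw [Submodule.map_le_iff_le_comap]
      refine sSup_le fun U hU => ?_
      rw [← Submodule.map_le_iff_le_comap]
      exact le_sSup (hIrr γ U hU)
    exact h1 ⟨x, hx, rfl⟩) with h | h
  · exfalso
    obtain ⟨U, ⟨hU0, hU⟩, hmin⟩ := IsArtinian.set_has_minimal
      {U : Submodule k V | U ≠ ⊥ ∧ ∀ g, ∀ x ∈ U, φ g x ∈ U}
      ⟨⊤, top_ne_bot, fun _ _ _ => trivial⟩
    have h1 : Irr φ U := by
      refine ⟨hU0, hU, fun U' hU' hinv => ?_⟩
      by_cases hb : U' = ⊥
      · exact Or.inl hb
      · right
        by_contra hne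
        exact hmin U' ⟨hb, hinv⟩ (lt_of_le_of_ne hU' hne)
    have h2 : U ≤ sSup {U : Submodule k V | Irr φ U} := le_sSup h1
    rw [h] at h2
    exact hU0 (le_bot_iff.mp h2)
  · exact h

end ss

section idem

open Polynomial

variable {k : Type} [Field k]

/-- idempotents in algebras -/
theorem exists_idem {B : Type} [Ring B] [Algebra k B] (R : B) (p : k[X]) (hp : p ≠ 0)
    (hR : aeval R p = 0) :
    ∃ q : k[X], q.eval 0 = 0 ∧ q.eval 1 = 1 ∧ aeval R q * aeval R q = aeval R q := by
  obtain ⟨g, hg, hg1⟩ := Polynomial.exists_eq_pow_rootMultiplicity_mul_and_not_dvd p hp (1 : k)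
  set a := rootMultiplicity 1 p with ha
  have h1 : IsCoprime ((X - C (1 : k)) ^ (a + 1)) (X * g) := by
    apply IsCoprime.pow_left
    apply IsCoprime.mul_right
    · have := Polynomial.isCoprime_X_sub_C_of_isUnit_sub (R := k) (a := 1) (b := 0) (by simp)
      simpa using this
    · exact ((irreducible_X_sub_C (1 : k)).coprime_iff_not_dvd).mpr hg1
  obtain ⟨u, v, huv⟩ := h1
  refine ⟨v * (X * g), ?_, ?_, ?_⟩
  · rw [eval_mul, eval_mul, eval_X]; ring
  · have h2 := congrArg (Polynomial.eval 1) huv
    rw [eval_add, eval_mul, eval_pow, eval_sub, eval_X, eval_C, sub_self, eval_one] at h2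
    rw [zero_pow (Nat.succ_ne_zero a), mul_zero, zero_add] at h2
    exact h2
  · have h3 : v * (X * g) * (v * (X * g)) - v * (X * g) = p * (-(u * v * X) * (X - C 1)) := by
      have h4 : v * (X * g) - 1 = -(u * (X - C 1) ^ (a + 1)) := by
        linear_combination huv
      calc v * (X * g) * (v * (X * g)) - v * (X * g) = v * (X * g) * (v * (X * g) - 1) := by ring
        _ = (((X - C 1) ^ a) * g) * (-(u * v * X) * (X - C 1)) := by rw [h4]; ring
        _ = p * (-(u * v * X) * (X - C 1)) := by rw [← hg]
    rw [← map_mul, ← sub_eq_zero, ← map_sub, h3, map_mul, hR, zero_mul]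

theorem trace_idem {n : Type} [Fintype n] [DecidableEq n] (A : Matrix n n k)
    (h : A * A = A) : ∃ m : ℕ, A.trace = m := by
  have h1 : IsIdempotentElem (Matrix.toLin' A) := by
    change Matrix.toLin' A ∘ₗ Matrix.toLin' A = Matrix.toLin' A
    rw [← Matrix.toLin'_mul, h]
  have h2 : LinearMap.IsProj (LinearMap.range (Matrix.toLin' A)) (Matrix.toLin' A) := by
    refine ⟨fun x => ⟨x, rfl⟩, ?_⟩
    rintro _ ⟨x, rfl⟩
    exact congrArg (fun t : Module.End k (n → k) => t x) h1
  refine ⟨finrank k (LinearMap.range (Matrix.toLin' A)), ?_⟩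
  rw [← h2.trace]
  exact (Matrix.trace_toLin'_eq A).symm

end idem

end Pool.Agent.V8H88.LR
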